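import Pool.Agent.Lib.MP_75b31c_lc.H40.Defs

set_option autoImplicit false

/-!
# Module CDF: the distribution function of an atomless probability measure on Cantor space
-/

namespace Pool.Agent.Lib.MP_75b31c_lc.H40

open MeasureTheory Filter Topology

theorem toNat_le_one (b : Bool) : b.toNat ≤ 1 := by cases b <;> simp

theorem val_lt (n : ℕ) (z : ℕ → Bool) : val n z < 2 ^ n := by
  induction n with
  | zero => simp [val]
  | succ n ih =>
    have := toNat_le_one (z n)
    simp only [val, pow_succ]
    omega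

theorem measurable_val (n : ℕ) : Measurable (val n) := by
  induction n with
  | zero => exact measurable_const
  | succ n ih =>
    have h : Measurable fun z : ℕ → Bool => (z n).toNat :=
      (measurable_of_countable Bool.toNat).comp (measurable_pi_apply n)
    have : val (n + 1) = fun z => 2 * val n z + (z n).toNat := rfl
    rw [this]
    exact (ih.const_mul 2).add h

/-- equal digits from equal values -/
theorem val_inj {z z' : ℕ → Bool} (h : ∀ n, val n z = val n z') : z = z' := by
  funext n
  have h1 := h n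
  have h2 := h (n + 1)
  simp only [val] at h2
  have h3 : (z n).toNat = (z' n).toNat := by omega
  cases hz : z n <;> cases hz' : z' n <;> simp_all

theorem val_succ_lt {n : ℕ} {u z : ℕ → Bool} (h : val n u < val n z) :
    val (n + 1) u < val (n + 1) z := by
  have := toNat_le_one (u n)
  simp only [val]
  omega

theorem val_lt_of_le {m n : ℕ} (hmn : m ≤ n) {u z : ℕ → Bool} (h : val m u < val m z) :
    val n u < val n z := by
  induction n, hmn using Nat.le_induction with
  | base => exact h
  | succ n _ ih => exact val_succ_lt ih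

theorem val_le_of_le {m n : ℕ} (hmn : m ≤ n) {u z : ℕ → Bool} (h : val n u ≤ val n z) :
    val m u ≤ val m z := by
  by_contra hc
  push Not at hc
  exact absurd (val_lt_of_le hmn hc) (by omega)

theorem val_le_of_exists {u z : ℕ → Bool} (h : ∃ k, val k u < val k z) (n : ℕ) :
    val n u ≤ val n z := by
  obtain ⟨k, hk⟩ := h
  by_contra hc
  push Not at hc
  rcases le_total k n with hkn | hkn
  · exact absurd (val_lt_of_le hkn hk) (by omega)
  · exact absurd (val_lt_of_le hkn hc) (by omega)

theorem measurableSet_val_lt (n v : ℕ) : MeasurableSet {u : ℕ → Bool | val n u < v} :=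
  measurableSet_lt (measurable_val n) measurable_const

theorem cdf_mono (ν : Measure (ℕ → Bool)) [IsProbabilityMeasure ν] (n : ℕ) {v w : ℕ} (h : v ≤ w) :
    cdf ν n v ≤ cdf ν n w :=
  measureReal_mono (fun u hu => lt_of_lt_of_le (show val n u < v from hu) h)

theorem cdf_zero (ν : Measure (ℕ → Bool)) (n : ℕ) : cdf ν n 0 = 0 := by
  simp [cdf]

theorem cdf_top (ν : Measure (ℕ → Bool)) [IsProbabilityMeasure ν] (n : ℕ) :
    cdf ν n (2 ^ n) = 1 := by
  have : {u : ℕ → Bool | val n u < 2 ^ n} = Set.univ := by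
    ext u
    simp [val_lt]
  simp [cdf, this]

theorem cdf_nonneg (ν : Measure (ℕ → Bool)) (n v : ℕ) : 0 ≤ cdf ν n v := measureReal_nonneg

theorem cdf_le_one (ν : Measure (ℕ → Bool)) [IsProbabilityMeasure ν] (n v : ℕ) :
    cdf ν n v ≤ 1 := measureReal_le_one

theorem cdf_succ (ν : Measure (ℕ → Bool)) (n v : ℕ) : cdf ν (n + 1) (2 * v) = cdf ν n v := by
  unfold cdf
  congr 1
  ext u
  have := toNat_le_one (u n)
  show val (n + 1) u < 2 * v ↔ val n u < v
  simp only [val]
  omega

theorem cdf_le_G (ν : Measure (ℕ → Bool)) [IsProbabilityMeasure ν] (n : ℕ) (z : ℕ → Bool) :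
    cdf ν n (val n z) ≤ G ν z :=
  measureReal_mono (fun u hu => ⟨n, hu⟩)

theorem G_le_cdf (ν : Measure (ℕ → Bool)) [IsProbabilityMeasure ν] (n : ℕ) (z : ℕ → Bool) :
    G ν z ≤ cdf ν n (val n z + 1) :=
  measureReal_mono (fun u hu => Nat.lt_succ_of_le (val_le_of_exists hu n))

theorem G_nonneg (ν : Measure (ℕ → Bool)) (z : ℕ → Bool) : 0 ≤ G ν z := measureReal_nonneg

theorem G_le_one (ν : Measure (ℕ → Bool)) [IsProbabilityMeasure ν] (z : ℕ → Bool) :
    G ν z ≤ 1 := measureReal_le_one

theorem tendsto_cdf_lower' (ν : Measure (ℕ → Bool)) [IsProbabilityMeasure ν] (z : ℕ → Bool) :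
    Tendsto (fun m => cdf ν m (val m z)) atTop (𝓝 (G ν z)) := by
  have hmono : Monotone fun m => {u : ℕ → Bool | val m u < val m z} :=
    fun m n hmn u hu => val_lt_of_le hmn hu
  have h := tendsto_measure_iUnion_atTop (μ := ν) hmono
  have hU : (⋃ m, {u : ℕ → Bool | val m u < val m z}) = {u | ∃ n, val n u < val n z} := by
    ext u
    simp
  rw [hU] at h
  exact (ENNReal.tendsto_toReal (measure_ne_top ν _)).comp h

theorem tendsto_cdf_lower (ν : Measure (ℕ → Bool)) [IsProbabilityMeasure ν] (hν : ∀ z, ν {z} = 0)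
    (z : ℕ → Bool) : Tendsto (fun m => cdf ν m (val m z)) atTop (𝓝 (G ν z)) :=
  tendsto_cdf_lower' ν z

theorem tendsto_cdf_upper (ν : Measure (ℕ → Bool)) [IsProbabilityMeasure ν] (hν : ∀ z, ν {z} = 0)
    (z : ℕ → Bool) : Tendsto (fun m => cdf ν m (val m z + 1)) atTop (𝓝 (G ν z)) := by
  have hanti : Antitone fun m => {u : ℕ → Bool | val m u < val m z + 1} :=
    fun m n hmn u hu => Nat.lt_succ_of_le (val_le_of_le hmn (Nat.le_of_lt_succ hu))
  have h := tendsto_measure_iInter_atTop (μ := ν)
    (fun m => (measurableSet_val_lt m (val m z + 1)).nullMeasurableSet) hanti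
    ⟨0, measure_ne_top ν _⟩
  have hI : ν (⋂ m, {u : ℕ → Bool | val m u < val m z + 1}) = ν {u | ∃ n, val n u < val n z} := by
    have hsub : (⋂ m, {u : ℕ → Bool | val m u < val m z + 1}) ⊆
        {u | ∃ n, val n u < val n z} ∪ {z} := by
      intro u hu
      by_cases hc : ∃ n, val n u < val n z
      · exact Or.inl hc
      · refine Or.inr ?_
        push Not at hc
        have : u = z := val_inj fun n =>
          le_antisymm (Nat.le_of_lt_succ (Set.mem_iInter.1 hu n)) (hc n)
        exact this
    apply le_antisymm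
    · calc ν (⋂ m, {u : ℕ → Bool | val m u < val m z + 1})
          ≤ ν ({u | ∃ n, val n u < val n z} ∪ {z}) := measure_mono hsub
        _ ≤ ν {u | ∃ n, val n u < val n z} + ν {z} := measure_union_le _ _
        _ = ν {u | ∃ n, val n u < val n z} := by rw [hν z, add_zero]
    · apply measure_mono
      intro u hu
      exact Set.mem_iInter.2 fun n => Nat.lt_succ_of_le (val_le_of_exists hu n)
  rw [hI] at h
  exact (ENNReal.tendsto_toReal (measure_ne_top ν _)).comp h

theorem measurable_cdf_val (ν : Measure (ℕ → Bool)) (m : ℕ) :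
    Measurable fun z : ℕ → Bool => cdf ν m (val m z) :=
  (measurable_of_countable (fun v : ℕ => cdf ν m v)).comp (measurable_val m)

theorem measurable_cdf_val_succ (ν : Measure (ℕ → Bool)) (m : ℕ) :
    Measurable fun z : ℕ → Bool => cdf ν m (val m z + 1) :=
  (measurable_of_countable (fun v : ℕ => cdf ν m (v + 1))).comp (measurable_val m)

theorem measurable_G (ν : Measure (ℕ → Bool)) [IsProbabilityMeasure ν] : Measurable (G ν) :=
  measurable_of_tendsto_metrizable (measurable_cdf_val ν)
    (tendsto_pi_nhds.2 fun z => tendsto_cdf_lower' ν z)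

/-- every `t ∈ [0, 1)` is a value of `G`. -/
theorem exists_G_eq (ν : Measure (ℕ → Bool)) [IsProbabilityMeasure ν] (hν : ∀ z, ν {z} = 0)
    {t : ℝ} (h0 : 0 ≤ t) (h1 : t < 1) :
    ∃ z, G ν z = t ∧ ∀ n, t < cdf ν n (val n z + 1) := by
  classical
  set v : ℕ → ℕ := fun n => Nat.findGreatest (fun v => cdf ν n v ≤ t) (2 ^ n) with hv
  have hle : ∀ n, cdf ν n (v n) ≤ t := fun n =>
    Nat.findGreatest_spec (P := fun v => cdf ν n v ≤ t) (Nat.zero_le _) (by rw [cdf_zero]; exact h0)
  have hlt : ∀ n, v n < 2 ^ n := by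
    intro n
    have h2 : v n ≤ 2 ^ n := Nat.findGreatest_le _
    rcases h2.lt_or_eq with h | h
    · exact h
    · have := hle n
      rw [h, cdf_top] at this
      linarith
  have hgt : ∀ n, t < cdf ν n (v n + 1) := by
    intro n
    have := Nat.findGreatest_is_greatest (P := fun v => cdf ν n v ≤ t) (n := 2 ^ n)
      (k := v n + 1) (Nat.lt_succ_self _) (hlt n)
    simpa using this
  have hstep : ∀ n, v (n + 1) = 2 * v n ∨ v (n + 1) = 2 * v n + 1 := by
    intro n
    have h2 : 2 * v n ≤ v (n + 1) := by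
      by_contra hc
      push Not at hc
      have h3 := cdf_mono ν (n + 1) (show v (n + 1) + 1 ≤ 2 * v n by omega)
      rw [cdf_succ] at h3
      linarith [hgt (n + 1), hle n]
    have h3 : v (n + 1) < 2 * (v n + 1) := by
      by_contra hc
      push Not at hc
      have h4 := cdf_mono ν (n + 1) hc
      rw [cdf_succ] at h4
      linarith [hgt n, hle (n + 1)]
    omega
  let z : ℕ → Bool := fun n => decide (v (n + 1) = 2 * v n + 1)
  have hz : ∀ n, val n z = v n := by
    intro n
    induction n with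
    | zero =>
      have := hlt 0
      simp only [val]
      omega
    | succ n ih =>
      have hzn : (z n).toNat = if v (n + 1) = 2 * v n + 1 then 1 else 0 := by
        show (decide (v (n + 1) = 2 * v n + 1)).toNat = _
        by_cases h : v (n + 1) = 2 * v n + 1 <;> simp [h]
      simp only [val, ih, hzn]
      rcases hstep n with h | h
      · rw [if_neg (by omega)]
        omega
      · rw [if_pos h]
        omega
  refine ⟨z, ?_, fun n => by rw [hz n]; exact hgt n⟩
  apply le_antisymm
  · exact le_of_tendsto' (tendsto_cdf_lower' ν z) fun n => by rw [hz n]; exact hle n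
  · exact ge_of_tendsto' (tendsto_cdf_upper ν hν z) fun n => by rw [hz n]; exact (hgt n).le

theorem G_mono {ν : Measure (ℕ → Bool)} [IsProbabilityMeasure ν] {u z : ℕ → Bool} {n : ℕ}
    (h : val n u < val n z) : G ν u ≤ G ν z :=
  (G_le_cdf ν n u).trans ((cdf_mono ν n h).trans (cdf_le_G ν n z))

theorem measure_G_le (ν : Measure (ℕ → Bool)) [IsProbabilityMeasure ν] (hν : ∀ z, ν {z} = 0)
    {t : ℝ} (h0 : 0 ≤ t) (h1 : t < 1) : ν.real {u | G ν u ≤ t} = t := by
  obtain ⟨z, hz, hz'⟩ := exists_G_eq ν hν h0 h1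
  apply le_antisymm
  · have h2 : ∀ n, ν.real {u | G ν u ≤ t} ≤ cdf ν n (val n z + 1) := by
      intro n
      refine measureReal_mono ?_
      intro u hu
      show val n u < val n z + 1
      by_contra hc
      push Not at hc
      have h3 : cdf ν n (val n z + 1) ≤ cdf ν n (val n u) := cdf_mono ν n hc
      have h4 := cdf_le_G ν n u
      have h5 : G ν u ≤ t := hu
      linarith [hz' n]
    have h3 := ge_of_tendsto' (tendsto_cdf_upper ν hν z) h2
    rw [hz] at h3
    exact h3
  · have h2 : G ν z ≤ ν.real {u | G ν u ≤ t} := by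
      refine measureReal_mono ?_
      rintro u ⟨n, hn⟩
      show G ν u ≤ t
      rw [← hz]
      exact G_mono hn
    rw [hz] at h2
    exact h2

/-- probability integral transform -/
theorem map_G (ν : Measure (ℕ → Bool)) [IsProbabilityMeasure ν] (hν : ∀ z, ν {z} = 0) :
    ν.map (G ν) = volume.restrict (Set.Icc (0 : ℝ) 1) := by
  have : IsProbabilityMeasure (ν.map (G ν)) :=
    Measure.isProbabilityMeasure_map (measurable_G ν).aemeasurable
  apply Measure.ext_of_Iic
  intro t
  rw [Measure.map_apply (measurable_G ν) measurableSet_Iic,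
    Measure.restrict_apply measurableSet_Iic]
  rcases lt_or_ge t 0 with ht | ht
  · have h1 : G ν ⁻¹' Set.Iic t = ∅ := by
      ext u
      simp only [Set.mem_preimage, Set.mem_Iic, Set.mem_empty_iff_false, iff_false, not_le]
      exact lt_of_lt_of_le ht (G_nonneg ν u)
    have h2 : Set.Iic t ∩ Set.Icc (0 : ℝ) 1 = ∅ := by
      ext u
      simp only [Set.mem_inter_iff, Set.mem_Iic, Set.mem_Icc, Set.mem_empty_iff_false, iff_false]
      rintro ⟨h3, h4, -⟩
      linarith
    rw [h1, h2]
    simp
  rcases lt_or_ge t 1 with ht1 | ht1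
  · have h2 : Set.Iic t ∩ Set.Icc (0 : ℝ) 1 = Set.Icc 0 t := by
      ext u
      simp only [Set.mem_inter_iff, Set.mem_Iic, Set.mem_Icc]
      constructor
      · rintro ⟨h3, h4, -⟩
        exact ⟨h4, h3⟩
      · rintro ⟨h3, h4⟩
        exact ⟨h4, h3, by linarith⟩
    rw [h2, Real.volume_Icc, sub_zero]
    have h3 := measure_G_le ν hν ht ht1
    have h4 : ENNReal.ofReal t = ν {u | G ν u ≤ t} := by
      conv_lhs => rw [← h3]
      exact ofReal_measureReal
    rw [h4]
    rfl
  · have h1 : G ν ⁻¹' Set.Iic t = Set.univ := by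
      ext u
      simp only [Set.mem_preimage, Set.mem_Iic, Set.mem_univ, iff_true]
      exact (G_le_one ν u).trans ht1
    have h2 : Set.Iic t ∩ Set.Icc (0 : ℝ) 1 = Set.Icc 0 1 := by
      ext u
      simp only [Set.mem_inter_iff, Set.mem_Iic, Set.mem_Icc]
      constructor
      · rintro ⟨h3, h4⟩
        exact h4
      · rintro h4
        exact ⟨h4.2.trans ht1, h4⟩
    rw [h1, h2]
    simp

theorem measurableSet_regular (ν : Measure (ℕ → Bool)) [IsProbabilityMeasure ν] :
    MeasurableSet {z | Regular ν z} := by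
  have : {z | Regular ν z} = ⋂ n, ({z | cdf ν n (val n z) < G ν z} ∩
      {z | G ν z < cdf ν n (val n z + 1)}) := by
    ext z
    simp [Regular]
  rw [this]
  exact MeasurableSet.iInter fun n =>
    (measurableSet_lt (measurable_cdf_val ν n) (measurable_G ν)).inter
      (measurableSet_lt (measurable_G ν) (measurable_cdf_val_succ ν n))

theorem ae_regular (ν : Measure (ℕ → Bool)) [IsProbabilityMeasure ν] (hν : ∀ z, ν {z} = 0) :
    ∀ᵐ z ∂ν, Regular ν z := by
  have hne : ∀ p : ℕ × ℕ, ∀ᵐ z ∂ν, G ν z ≠ cdf ν p.1 p.2 := by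
    rintro ⟨n, v⟩
    rw [ae_iff]
    have h1 : {z | ¬ G ν z ≠ cdf ν n v} = G ν ⁻¹' {cdf ν n v} := by
      ext z
      simp
    show ν {z | ¬ G ν z ≠ cdf ν n v} = 0
    rw [h1, ← Measure.map_apply (measurable_G ν) (measurableSet_singleton _), map_G ν hν]
    simp
  filter_upwards [ae_all_iff.2 hne] with z hz
  intro n
  exact ⟨lt_of_le_of_ne (cdf_le_G ν n z) (hz (n, _)).symm,
    lt_of_le_of_ne (G_le_cdf ν n z) (hz (n, _))⟩

theorem regular_inj {ν : Measure (ℕ → Bool)} [IsProbabilityMeasure ν] {z z' : ℕ → Bool}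
    (hz : Regular ν z) (hz' : Regular ν z') (h : G ν z = G ν z') : z = z' := by
  apply val_inj
  intro n
  by_contra hc
  rcases lt_or_gt_of_ne hc with hlt | hlt
  · have h1 := (hz n).2
    have h2 := (hz' n).1
    have h3 := cdf_mono ν n (show val n z + 1 ≤ val n z' from hlt)
    linarith
  · have h1 := (hz' n).2
    have h2 := (hz n).1
    have h3 := cdf_mono ν n (show val n z' + 1 ≤ val n z from hlt)
    linarith

end Pool.Agent.Lib.MP_75b31c_lc.H40
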