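import Mathlib

set_option autoImplicit false

/-!
# Definitions for `Paper.md` (MP_75b31c_lc)
-/

namespace Pool.Agent.Lib.MP_75b31c_lc.H40

open MeasureTheory

/-- The infinite binary sequence `z` as a (total) function with values `0` and `1`, used as an
oracle. -/
def chi (z : ℕ → Bool) : ℕ →. ℕ := fun n => Part.some (z n).toNat

/-- The join `⊕_j s_j` of a sequence of infinite binary sequences. -/
def join (s : ℕ → ℕ → Bool) : ℕ → Bool := fun n => s n.unpair.1 n.unpair.2

/-- `val n z` is the number `< 2 ^ n` whose binary digits are `z 0, …, z (n - 1)`, the most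
significant digit first. So comparing `val n` is comparing initial segments of length `n`
lexicographically. -/
def val : ℕ → (ℕ → Bool) → ℕ
  | 0, _ => 0
  | n + 1, z => 2 * val n z + (z n).toNat

/-- The distribution function of `ν` at dyadic points: the measure of the set of all `u` whose
initial segment of length `n`, read as a number, is `< v`. -/
noncomputable def cdf (ν : Measure (ℕ → Bool)) (n v : ℕ) : ℝ := ν.real {u | val n u < v}

/-- `z` computes the measure `ν`: some function recursive in `z` approximates the distribution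
function of `ν` at all dyadic points with arbitrary precision. -/
def Computes (z : ℕ → Bool) (ν : Measure (ℕ → Bool)) : Prop :=
  ∃ a : ℕ × ℕ × ℕ → ℕ, ComputableIn {chi z} a ∧
    ∀ k n v : ℕ, v ≤ 2 ^ n → |(a (k, n, v) : ℝ) / 2 ^ k - cdf ν n v| ≤ 1 / 2 ^ k

/-- The distribution function of `ν` on the whole Cantor space. -/
noncomputable def G (ν : Measure (ℕ → Bool)) (z : ℕ → Bool) : ℝ :=
  ν.real {u | ∃ n, val n u < val n z}

/-- `z` is regular for `ν`. -/
def Regular (ν : Measure (ℕ → Bool)) (z : ℕ → Bool) : Prop :=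
  ∀ n, cdf ν n (val n z) < G ν z ∧ G ν z < cdf ν n (val n z + 1)

/-- `cnt N n v s` is the number of `j < N` with `val n (s j) < v`. -/
def cnt (N n v : ℕ) (s : ℕ → ℕ → Bool) : ℕ := ((List.range N).filter fun j => val n (s j) < v).length

/-- The sequence `s` equidistributes for `ν` with polynomial rate. -/
def Accurate (ν : Measure (ℕ → Bool)) (s : ℕ → ℕ → Bool) : Prop :=
  ∃ m₀, ∀ m, m₀ ≤ m → ∀ n, n ≤ m → ∀ v, v ≤ 2 ^ n →
    |(cnt (32 ^ m) n v s : ℝ) / 32 ^ m - cdf ν n v| ≤ 1 / 2 ^ m

/-- A fair coin. -/
noncomputable def coin : Measure Bool :=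
  (2⁻¹ : ENNReal) • Measure.dirac true + (2⁻¹ : ENNReal) • Measure.dirac false

instance : IsProbabilityMeasure coin := ⟨by
  simp only [coin, Measure.coe_add, Measure.coe_smul, Pi.add_apply, Pi.smul_apply, measure_univ,
    smul_eq_mul, mul_one]
  exact ENNReal.inv_two_add_inv_two⟩

/-- The coin tossing measure on `2 ^ Γ`. -/
noncomputable def coinPi (Γ : Type) : Measure (Γ → Bool) := Measure.infinitePi fun _ => coin

instance (Γ : Type) : IsProbabilityMeasure (coinPi Γ) := by
  unfold coinPi; infer_instance

/-- The shift action of `Γ` on `2 ^ Γ`: `(γ · x) δ = x (γ⁻¹ δ)`. -/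
def shift {Γ : Type} [Group Γ] (γ : Γ) (x : Γ → Bool) : Γ → Bool := fun δ => x (γ⁻¹ * δ)

end Pool.Agent.Lib.MP_75b31c_lc.H40
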