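import Mathlib

set_option autoImplicit false

/-!
A spectral gap gives exponentially fast equidistribution along words.
-/

namespace Pool.Agent.Lib.MP_75b31c_lc.H40

open MeasureTheory Filter Topology

/-- `word r s j` is the product `s d₀ * s d₁ * ⋯ * s d_k` where `d₀, d₁, …, d_k` are the digits of
`j` in base `r`, the least significant digit first. If `s 0 = 1` then `word r s j`, `j < r ^ m`,
runs through all words of length `m` in `s 0, …, s (r - 1)`. -/
def word {Γ : Type} [Group Γ] (r : ℕ) (s : ℕ → Γ) (j : ℕ) : Γ := ((Nat.digits r j).map s).prod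

theorem word_zero {Γ : Type} [Group Γ] (r : ℕ) (s : ℕ → Γ) : word r s 0 = 1 := by
  simp [word]

theorem word_add {Γ : Type} [Group Γ] {r : ℕ} (hr : 2 ≤ r) {s : ℕ → Γ} (hs : s 0 = 1) {d : ℕ}
    (hd : d < r) (j : ℕ) : word r s (d + r * j) = s d * word r s j := by
  by_cases h : d ≠ 0 ∨ j ≠ 0
  · unfold word
    rw [Nat.digits_add r (by omega) d j hd h]
    simp
  · push Not at h
    obtain ⟨rfl, rfl⟩ := h
    simp [word, hs]

theorem sum_range_mul' (n r : ℕ) (g : ℕ → ℝ) :
    ∑ j ∈ Finset.range (n * r), g j =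
      ∑ j ∈ Finset.range n, ∑ d ∈ Finset.range r, g (d + r * j) := by
  induction n with
  | zero => simp
  | succ n ih =>
    rw [Finset.sum_range_succ, ← ih, Nat.succ_mul, Finset.sum_range_add]
    congr 1
    refine Finset.sum_congr rfl fun d _ => ?_
    congr 1
    ring

section
variable {Γ : Type} [Group Γ] {X : Type} [MeasurableSpace X] [MulAction Γ X]

/-- spectral gap for bounded measurable functions of mean zero -/
def SpectralGap (μ : Measure X) (r : ℕ) (s : ℕ → Γ) : Prop :=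
  ∃ κ : ℝ, κ < 1 ∧ ∀ h : X → ℝ, Measurable h → (∃ M, ∀ x, |h x| ≤ M) → ∫ x, h x ∂μ = 0 →
    ∫ x, ((∑ i ∈ Finset.range r, h (s i • x)) / r) ^ 2 ∂μ ≤ κ * ∫ x, h x ^ 2 ∂μ

/-- averaging along words of length `m` -/
theorem gap_words (hact : ∀ γ : Γ, Measurable fun x : X => γ • x) (μ : Measure X)
    [IsProbabilityMeasure μ] (hμ : ∀ γ : Γ, μ.map (fun x : X => γ • x) = μ) {r : ℕ} (hr : 2 ≤ r)
    {s : ℕ → Γ} (hs : s 0 = 1) {κ : ℝ} (hκ : 0 ≤ κ)
    (hgap : ∀ h : X → ℝ, Measurable h → (∃ M, ∀ x, |h x| ≤ M) → ∫ x, h x ∂μ = 0 →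
      ∫ x, ((∑ i ∈ Finset.range r, h (s i • x)) / r) ^ 2 ∂μ ≤ κ * ∫ x, h x ^ 2 ∂μ) (m : ℕ) :
    ∀ h : X → ℝ, Measurable h → (∃ M, ∀ x, |h x| ≤ M) → ∫ x, h x ∂μ = 0 →
      ∫ x, ((∑ j ∈ Finset.range (r ^ m), h (word r s j • x)) / r ^ m) ^ 2 ∂μ ≤
        κ ^ m * ∫ x, h x ^ 2 ∂μ := by
  induction m with
  | zero =>
    intro h _ _ _
    simp [word_zero]
  | succ m ih =>
    intro h hm hb h0
    obtain ⟨M, hM⟩ := hb
    have hr0 : (0 : ℝ) < r := by exact_mod_cast (by omega : 0 < r)
    set A : X → ℝ := fun x => (∑ i ∈ Finset.range r, h (s i • x)) / r with hA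
    have hAm : Measurable A := by
      refine Measurable.div_const ?_ _
      exact Finset.measurable_sum _ fun i _ => hm.comp (hact (s i))
    have hint : ∀ γ : Γ, Integrable (fun x => h (γ • x)) μ := by
      intro γ
      refine Integrable.of_bound (hm.comp (hact γ)).aestronglyMeasurable M ?_
      exact Eventually.of_forall fun x => by rw [Real.norm_eq_abs]; exact hM _
    have hAb : ∃ M, ∀ x, |A x| ≤ M := by
      refine ⟨M, fun x => ?_⟩
      rw [hA]
      simp only
      rw [abs_div, abs_of_pos hr0, div_le_iff₀ hr0]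
      calc |∑ i ∈ Finset.range r, h (s i • x)| ≤ ∑ i ∈ Finset.range r, |h (s i • x)| :=
            Finset.abs_sum_le_sum_abs _ _
        _ ≤ ∑ _i ∈ Finset.range r, M := Finset.sum_le_sum fun i _ => hM _
        _ = M * r := by simp [mul_comm]
    have hA0 : ∫ x, A x ∂μ = 0 := by
      have h1 : ∫ x, A x ∂μ = (∑ i ∈ Finset.range r, ∫ x, h (s i • x) ∂μ) / r := by
        rw [hA]
        simp only
        rw [integral_div, integral_finsetSum _ fun i _ => hint (s i)]
      rw [h1]
      have h2 : ∀ i ∈ Finset.range r, ∫ x, h (s i • x) ∂μ = 0 := by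
        intro i _
        have h3 : ∫ x, h x ∂(μ.map fun x : X => s i • x) = ∫ x, h (s i • x) ∂μ :=
          integral_map (hact (s i)).aemeasurable hm.aestronglyMeasurable
        rw [hμ (s i), h0] at h3
        exact h3.symm
      rw [Finset.sum_eq_zero h2, zero_div]
    have h1 := ih A hAm hAb hA0
    have h2 := hgap h hm ⟨M, hM⟩ h0
    have e : ∀ x : X, (∑ j ∈ Finset.range (r ^ (m + 1)), h (word r s j • x)) / (r : ℝ) ^ (m + 1) =
        (∑ j ∈ Finset.range (r ^ m), A (word r s j • x)) / (r : ℝ) ^ m := by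
      intro x
      rw [pow_succ, sum_range_mul']
      have : ∀ j ∈ Finset.range (r ^ m), ∑ d ∈ Finset.range r, h (word r s (d + r * j) • x) =
          r * A (word r s j • x) := by
        intro j _
        rw [hA]
        simp only
        rw [mul_div_cancel₀ _ hr0.ne']
        refine Finset.sum_congr rfl fun d hd => ?_
        rw [word_add hr hs (Finset.mem_range.1 hd), mul_smul]
      rw [Finset.sum_congr rfl this, ← Finset.mul_sum]
      field_simp
      ring
    simp only [e]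
    calc _ ≤ κ ^ m * ∫ x, A x ^ 2 ∂μ := h1
      _ ≤ κ ^ m * (κ * ∫ x, h x ^ 2 ∂μ) := mul_le_mul_of_nonneg_left h2 (by positivity)
      _ = κ ^ (m + 1) * ∫ x, h x ^ 2 ∂μ := by ring

/-- exponentially fast equidistribution along words -/
theorem gap_rate (hact : ∀ γ : Γ, Measurable fun x : X => γ • x) (μ : Measure X)
    [IsProbabilityMeasure μ] (hμ : ∀ γ : Γ, μ.map (fun x : X => γ • x) = μ) {r : ℕ} (hr : 2 ≤ r)
    {s : ℕ → Γ} (hs : s 0 = 1) (hgap : SpectralGap μ r s) :
    ∃ κ : ℝ, 0 ≤ κ ∧ κ < 1 ∧ ∀ C : Set X, MeasurableSet C → ∀ m : ℕ,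
      ∫ x, ((∑ j ∈ Finset.range (r ^ m), C.indicator (fun _ => (1 : ℝ)) (word r s j • x)) / r ^ m
        - μ.real C) ^ 2 ∂μ ≤ κ ^ m := by
  obtain ⟨κ, hκ, hgap⟩ := hgap
  refine ⟨max κ 0, le_max_right _ _, max_lt hκ one_pos, fun C hC m => ?_⟩
  have hgap' : ∀ h : X → ℝ, Measurable h → (∃ M, ∀ x, |h x| ≤ M) → ∫ x, h x ∂μ = 0 →
      ∫ x, ((∑ i ∈ Finset.range r, h (s i • x)) / r) ^ 2 ∂μ ≤ max κ 0 * ∫ x, h x ^ 2 ∂μ := by
    intro h hm hb h0
    refine (hgap h hm hb h0).trans (mul_le_mul_of_nonneg_right (le_max_left _ _) ?_)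
    exact integral_nonneg fun x => sq_nonneg _
  set h : X → ℝ := fun x => C.indicator (fun _ => (1 : ℝ)) x - μ.real C with hh
  have hm : Measurable h := (measurable_const.indicator hC).sub_const _
  have h01 : ∀ x, |h x| ≤ 1 := by
    intro x
    have h1 : 0 ≤ μ.real C := measureReal_nonneg
    have h2 : μ.real C ≤ 1 := measureReal_le_one
    rw [hh]
    simp only
    by_cases hx : x ∈ C
    · rw [Set.indicator_of_mem hx, abs_le]; constructor <;> linarith
    · rw [Set.indicator_of_notMem hx, abs_le]; constructor <;> linarith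
  have hint : Integrable (fun x => C.indicator (fun _ => (1 : ℝ)) x) μ :=
    (integrable_const (1 : ℝ)).indicator hC
  have h0 : ∫ x, h x ∂μ = 0 := by
    rw [hh]
    simp only
    rw [integral_sub hint (integrable_const _), integral_indicator_const _ hC]
    simp
  have h1 := gap_words hact μ hμ hr hs (le_max_right _ _) hgap' m h hm ⟨1, h01⟩ h0
  have h2 : ∫ x, h x ^ 2 ∂μ ≤ 1 := by
    have : ∫ x, h x ^ 2 ∂μ ≤ ∫ _, (1 : ℝ) ∂μ := by
      apply integral_mono_of_nonneg
      · exact Eventually.of_forall fun x => sq_nonneg _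
      · exact integrable_const _
      · refine Eventually.of_forall fun x => ?_
        show h x ^ 2 ≤ 1
        rw [← sq_abs]
        exact pow_le_one₀ (abs_nonneg _) (h01 x)
    simpa using this
  have hr0 : (0 : ℝ) < (r : ℝ) ^ m := by
    have : 0 < r := by omega
    positivity
  have e : ∀ x : X, (∑ j ∈ Finset.range (r ^ m), C.indicator (fun _ => (1 : ℝ)) (word r s j • x)) /
      (r : ℝ) ^ m - μ.real C = (∑ j ∈ Finset.range (r ^ m), h (word r s j • x)) / (r : ℝ) ^ m := by
    intro x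
    rw [hh]
    simp only
    rw [Finset.sum_sub_distrib, sub_div]
    congr 1
    simp only [Finset.sum_const, Finset.card_range, nsmul_eq_mul]
    push_cast
    field_simp
  simp only [e]
  calc _ ≤ max κ 0 ^ m * ∫ x, h x ^ 2 ∂μ := h1
    _ ≤ max κ 0 ^ m * 1 := mul_le_mul_of_nonneg_left h2 (by positivity)
    _ = max κ 0 ^ m := mul_one _

end

end Pool.Agent.Lib.MP_75b31c_lc.H40
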