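import Pool.Agent.Lib.MP_75b31c_lc.H40.Samp

set_option autoImplicit false

/-!
Module SAMP for an arbitrary base `r` in place of 32.
-/

namespace Pool.Agent.Lib.MP_75b31c_lc.H40

open MeasureTheory Filter Topology
open Pool.Agent.Lib.MP_f26228_lc (seg seg_length seg_getElem? seg_prefix seg_take)
open Pool.Agent.Lib.MP_f7c71a_lc (nrec_prim nrec_comp nrec_pair search_rec mem_rfindOpt)

/-- The sequence `s` equidistributes for `ν` with polynomial rate. -/
def AccurateR (r : ℕ) (ν : Measure (ℕ → Bool)) (s : ℕ → ℕ → Bool) : Prop :=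
  ∃ m₀, ∀ m, m₀ ≤ m → ∀ n, n ≤ m → ∀ v, v ≤ 2 ^ n →
    |(cnt (r ^ m) n v s : ℝ) / r ^ m - cdf ν n v| ≤ 1 / 2 ^ m

/-- the search -/
def ThetaR (r m₀ : ℕ) (ρ : List ℕ) (q : ℕ × ℕ × ℕ) : Option ℕ :=
  if Nat.pair (r ^ prec m₀ q) q.2.1 ≤ ρ.length then
    some ((2 * (cntL ρ (r ^ prec m₀ q) q.2.1 q.2.2 * 2 ^ q.1) + r ^ prec m₀ q) /
      (2 * r ^ prec m₀ q))
  else none

theorem thetaR_primrec (r m₀ : ℕ) : Primrec₂ (ThetaR r m₀) := by
  have hr : Primrec fun x : List ℕ × (ℕ × ℕ × ℕ) => x.1 := Primrec.fst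
  have hq : Primrec fun x : List ℕ × (ℕ × ℕ × ℕ) => x.2 := Primrec.snd
  have hN : Primrec fun x : List ℕ × (ℕ × ℕ × ℕ) => r ^ prec m₀ x.2 :=
    pow_primrec r ((prec_primrec m₀).comp hq)
  have hk : Primrec fun x : List ℕ × (ℕ × ℕ × ℕ) => 2 ^ x.2.1 :=
    pow_primrec 2 (Primrec.fst.comp hq)
  have hn : Primrec fun x : List ℕ × (ℕ × ℕ × ℕ) => x.2.2.1 :=
    Primrec.fst.comp (Primrec.snd.comp hq)
  have hv : Primrec fun x : List ℕ × (ℕ × ℕ × ℕ) => x.2.2.2 :=
    Primrec.snd.comp (Primrec.snd.comp hq)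
  refine Primrec.ite (Primrec.nat_le.comp (Primrec₂.natPair.comp hN hn)
    (Primrec.list_length.comp hr)) ?_ (Primrec.const none)
  refine Primrec.option_some.comp (Primrec.nat_div.comp ?_
    (Primrec.nat_mul.comp (Primrec.const 2) hN))
  exact Primrec.nat_add.comp (Primrec.nat_mul.comp (Primrec.const 2)
    (Primrec.nat_mul.comp (cntL_primrec hr hN hn hv) hk)) hN

theorem computes_of_accurateR {r : ℕ} (hr : 0 < r) (ν : Measure (ℕ → Bool))
    [IsProbabilityMeasure ν] {s : ℕ → ℕ → Bool} {z : ℕ → Bool} (hs : AccurateR r ν s) (h : TuringReducible (chi (join s)) (chi z)) :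
    Computes z ν := by
  obtain ⟨m₀, hm₀⟩ := hs
  let X : ℕ → ℕ := fun i => (join s i).toNat
  let a : ℕ × ℕ × ℕ → ℕ := fun q =>
    (2 * (cnt (r ^ prec m₀ q) q.2.1 q.2.2 s * 2 ^ q.1) + r ^ prec m₀ q) / (2 * r ^ prec m₀ q)
  refine ⟨a, ?_, ?_⟩
  · have hS := search_rec X (thetaR_primrec r m₀)
    have hval : ∀ q t, Nat.pair (r ^ prec m₀ q) q.2.1 ≤ t →
        ThetaR r m₀ (seg X t) q = some (a q) := by
      intro q t ht
      unfold ThetaR
      rw [if_pos (by rw [seg_length]; exact ht), cntL_seg ht]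
    have key : ∀ q, Nat.rfindOpt (fun t => ThetaR r m₀ (seg X t) q) = Part.some (a q) := by
      intro q
      apply Part.eq_some_iff.2
      rw [mem_rfindOpt]
      · exact ⟨_, hval q _ le_rfl⟩
      · intro t t' v htt' hv
        have h1 : Nat.pair (r ^ prec m₀ q) q.2.1 ≤ t := by
          by_contra hc
          unfold ThetaR at hv
          rw [if_neg (by rw [seg_length]; exact hc)] at hv
          cases hv
        rw [hval q t h1] at hv
        rw [hval q t' (h1.trans htt')]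
        exact hv
    have h1 : RecursiveIn {chi (join s)} fun q => Part.some (a q) :=
      RecursiveIn.of_eq hS key
    show RecursiveIn {chi z} fun q => Part.some (a q)
    refine RecursiveIn.subst h1 ?_
    intro g hg
    rw [Set.mem_singleton_iff.1 hg]
    exact h
  · intro k n v hv
    set m := prec m₀ (k, n, v) with hm
    have h1 : k + 1 ≤ m := le_max_left _ _
    have h2 : m₀ ≤ m := (le_max_left _ _).trans (le_max_right _ _)
    have h3 : n ≤ m := (le_max_right m₀ n).trans (le_max_right _ _)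
    have h4 := hm₀ m h2 n h3 v hv
    have h5 := round_bound (cnt (r ^ m) n v s) (2 ^ k) (r ^ m) (by positivity) (by positivity)
    have h6 : (1 : ℝ) / 2 ^ m ≤ 1 / (2 * 2 ^ k) := by
      rw [show (2 : ℝ) * 2 ^ k = 2 ^ (k + 1) by ring]
      exact one_div_le_one_div_of_le (by positivity) (pow_le_pow_right₀ (by norm_num) h1)
    have h7 : (1 : ℝ) / 2 ^ k = 1 / (2 * 2 ^ k) + 1 / (2 * 2 ^ k) := by
      field_simp
      norm_num
    push_cast at h5
    have h8 : a (k, n, v) = (2 * (cnt (r ^ m) n v s * 2 ^ k) + r ^ m) / (2 * r ^ m) := rfl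
    rw [h8, h7]
    calc |(((2 * (cnt (r ^ m) n v s * 2 ^ k) + r ^ m) / (2 * r ^ m) : ℕ) : ℝ) / 2 ^ k
          - cdf ν n v|
        ≤ |(((2 * (cnt (r ^ m) n v s * 2 ^ k) + r ^ m) / (2 * r ^ m) : ℕ) : ℝ) / 2 ^ k
          - (cnt (r ^ m) n v s : ℝ) / r ^ m| +
          |(cnt (r ^ m) n v s : ℝ) / r ^ m - cdf ν n v| := abs_sub_le _ _ _
      _ ≤ 1 / (2 * 2 ^ k) + 1 / (2 * 2 ^ k) := add_le_add h5 (h4.trans h6)

end Pool.Agent.Lib.MP_75b31c_lc.H40
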