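import Pool.Agent.Lib.MP_75b31c_lc.H40.Defs
import Pool.Agent.Lib.MP_f7c71a_lc.Oracle

set_option autoImplicit false

/-!
The set of all `z` which compute `ν` is measurable.
-/

namespace Pool.Agent.Lib.MP_75b31c_lc.H40

open MeasureTheory
open Nat.Partrec (Code)
open Encodable
open Pool.Agent.Lib.MP_f26228_lc (seg seg_length seg_getElem? seg_prefix seg_take val_primrec val_mono)
open Pool.Agent.Lib.MP_f7c71a_lc (search_rec oracle_code mem_rfindOpt)

/-- the bits of `z` as natural numbers -/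
def nb (z : ℕ → Bool) (n : ℕ) : ℕ := (z n).toNat

/-- value of code `c` on initial segments -/
abbrev cval := Pool.Agent.Lib.MP_f26228_lc.val

theorem measurable_fin_dep (t : ℕ) (P : List ℕ → Prop) :
    MeasurableSet {z : ℕ → Bool | P (seg (nb z) t)} := by
  let res : (ℕ → Bool) → (Fin t → Bool) := fun z i => z i
  let ext : (Fin t → Bool) → ℕ → Bool := fun r n => if h : n < t then r ⟨n, h⟩ else false
  have hres : Measurable res := measurable_pi_lambda _ fun i => measurable_pi_apply _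
  have hS : MeasurableSet {r : Fin t → Bool | P (seg (nb (ext r)) t)} := (Set.toFinite _).measurableSet
  have : {z : ℕ → Bool | P (seg (nb z) t)} = res ⁻¹' {r : Fin t → Bool | P (seg (nb (ext r)) t)} := by
    ext z
    have e : seg (nb z) t = seg (nb (ext (res z))) t := by
      unfold seg
      refine List.map_congr_left fun n hn => ?_
      have hn' : n < t := List.mem_range.1 hn
      simp [nb, ext, res, hn']
    simp only [Set.mem_setOf_eq, Set.mem_preimage]
    rw [e]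
  rw [this]
  exact hres hS

theorem computes_iff (ν : Measure (ℕ → Bool)) (z : ℕ → Bool) :
    Computes z ν ↔ ∃ c : Code, ∀ p : ℕ × ℕ × ℕ, ∃ w t : ℕ,
      cval c (seg (nb z) t) (encode p) = some w ∧
        (p.2.2 ≤ 2 ^ p.2.1 → |(w : ℝ) / 2 ^ p.1 - cdf ν p.2.1 p.2.2| ≤ 1 / 2 ^ p.1) := by
  constructor
  · rintro ⟨a, ha, h⟩
    obtain ⟨c, hc⟩ := oracle_code (nb z) (D := fun p : ℕ × ℕ × ℕ => Part.some (a p)) ha
    refine ⟨c, fun p => ?_⟩
    obtain ⟨t, ht⟩ := (hc p (a p)).1 ⟨a p, Part.mem_some _, rfl⟩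
    exact ⟨a p, t, ht, fun hp => h p.1 p.2.1 p.2.2 hp⟩
  · rintro ⟨c, hc⟩
    choose a t h1 h2 using hc
    refine ⟨a, ?_, fun k n v hv => h2 (k, n, v) hv⟩
    have hΘ : Primrec₂ fun (ρ : List ℕ) (p : ℕ × ℕ × ℕ) => cval c ρ (encode p) :=
      val_primrec.comp (Primrec.pair (Primrec.pair (Primrec.const c) Primrec.fst)
        (Primrec.encode.comp Primrec.snd))
    have hS := search_rec (nb z) hΘ
    refine RecursiveIn.of_eq hS fun p => ?_
    refine Part.eq_some_iff.2 ?_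
    refine (mem_rfindOpt ?_).2 ⟨t p, h1 p⟩
    intro s u v hsu hv
    exact val_mono (seg_prefix _ hsu) hv

theorem measurableSet_computes (ν : Measure (ℕ → Bool)) : MeasurableSet {z | Computes z ν} := by
  simp only [computes_iff]
  have e : {z : ℕ → Bool | ∃ c : Code, ∀ p : ℕ × ℕ × ℕ, ∃ w t : ℕ,
      cval c (seg (nb z) t) (encode p) = some w ∧
        (p.2.2 ≤ 2 ^ p.2.1 → |(w : ℝ) / 2 ^ p.1 - cdf ν p.2.1 p.2.2| ≤ 1 / 2 ^ p.1)} =
      ⋃ c : Code, ⋂ p : ℕ × ℕ × ℕ, ⋃ w : ℕ, ⋃ t : ℕ, {z : ℕ → Bool |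
        cval c (seg (nb z) t) (encode p) = some w ∧
        (p.2.2 ≤ 2 ^ p.2.1 → |(w : ℝ) / 2 ^ p.1 - cdf ν p.2.1 p.2.2| ≤ 1 / 2 ^ p.1)} := by
    ext z
    simp only [Set.mem_setOf_eq, Set.mem_iUnion, Set.mem_iInter]
  rw [e]
  have : Countable Code := Encodable.countable
  refine MeasurableSet.iUnion fun c => MeasurableSet.iInter fun p => MeasurableSet.iUnion fun w =>
    MeasurableSet.iUnion fun t => ?_
  exact measurable_fin_dep t fun l => cval c l (encode p) = some w ∧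
        (p.2.2 ≤ 2 ^ p.2.1 → |(w : ℝ) / 2 ^ p.1 - cdf ν p.2.1 p.2.2| ≤ 1 / 2 ^ p.1)

end Pool.Agent.Lib.MP_75b31c_lc.H40
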