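import Pool.Agent.Lib.MP_75b31c_lc.H40.Theta
import Pool.Agent.Lib.MP_75b31c_lc.H40.Cdf

set_option autoImplicit false

/-!
Module SAMP: a sequence which equidistributes with polynomial rate computes the measure.
-/

namespace Pool.Agent.Lib.MP_75b31c_lc.H40

open MeasureTheory Filter Topology
open Pool.Agent.Lib.MP_f26228_lc (seg seg_length seg_getElem? seg_prefix seg_take)
open Pool.Agent.Lib.MP_f7c71a_lc (nrec_prim nrec_comp nrec_pair search_rec mem_rfindOpt)

/-- `val n (s j)` read off an initial segment of `join s` -/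
def valJ (ρ : List ℕ) (j n : ℕ) : ℕ := n.rec 0 fun i V => 2 * V + ρ.getD (Nat.pair j i) 0

/-- `cnt N n v s` read off an initial segment of `join s` -/
def cntL (ρ : List ℕ) (N n v : ℕ) : ℕ := N.rec 0 fun j A => A + if valJ ρ j n < v then 1 else 0

theorem valJ_primrec {α : Type} [Primcodable α] {f : α → List ℕ} {h g : α → ℕ} (hf : Primrec f)
    (hh : Primrec h) (hg : Primrec g) : Primrec fun a => valJ (f a) (h a) (g a) := by
  unfold valJ
  refine Primrec.nat_rec' (f := g) (g := fun _ => 0)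
    (h := fun a (y : ℕ × ℕ) => 2 * y.2 + (f a).getD (Nat.pair (h a) y.1) 0) hg
    (Primrec.const 0) ?_
  refine Primrec.nat_add.comp (Primrec.nat_mul.comp (Primrec.const 2)
    (Primrec.snd.comp Primrec.snd)) ?_
  exact getD_primrec (hf.comp Primrec.fst)
    (Primrec₂.natPair.comp (hh.comp Primrec.fst) (Primrec.fst.comp Primrec.snd))

theorem cntL_primrec {α : Type} [Primcodable α] {f : α → List ℕ} {N n v : α → ℕ} (hf : Primrec f)
    (hN : Primrec N) (hn : Primrec n) (hv : Primrec v) :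
    Primrec fun a => cntL (f a) (N a) (n a) (v a) := by
  unfold cntL
  refine Primrec.nat_rec' (f := N) (g := fun _ => 0)
    (h := fun a (y : ℕ × ℕ) => y.2 + if valJ (f a) y.1 (n a) < v a then 1 else 0) hN
    (Primrec.const 0) ?_
  refine Primrec.nat_add.comp (Primrec.snd.comp Primrec.snd) ?_
  refine Primrec.ite (Primrec.nat_lt.comp ?_ (hv.comp Primrec.fst)) (Primrec.const 1)
    (Primrec.const 0)
  exact valJ_primrec (hf.comp Primrec.fst) (Primrec.fst.comp Primrec.snd) (hn.comp Primrec.fst)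

theorem cnt_succ (N n v : ℕ) (s : ℕ → ℕ → Bool) :
    cnt (N + 1) n v s = cnt N n v s + if val n (s N) < v then 1 else 0 := by
  unfold cnt
  rw [List.range_succ, List.filter_append, List.length_append]
  by_cases h : val n (s N) < v <;> simp [h]

theorem samp_getD (X : ℕ → ℕ) {t i : ℕ} (h : i < t) : (seg X t).getD i 0 = X i := by
  rw [List.getD_eq_getElem?_getD, seg_getElem?, if_pos h]; rfl

theorem valJ_seg {s : ℕ → ℕ → Bool} {t j n : ℕ} (h : Nat.pair j n ≤ t) :
    valJ (seg (fun i => (join s i).toNat) t) j n = val n (s j) := by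
  induction n with
  | zero => rfl
  | succ n ih =>
    have h1 : Nat.pair j n < Nat.pair j (n + 1) := Nat.pair_lt_pair_right _ (Nat.lt_succ_self n)
    have h2 := ih (by omega)
    have h3 : valJ (seg (fun i => (join s i).toNat) t) j (n + 1) =
        2 * valJ (seg (fun i => (join s i).toNat) t) j n +
          (seg (fun i => (join s i).toNat) t).getD (Nat.pair j n) 0 := rfl
    rw [h3, h2, samp_getD _ (by omega)]
    simp [join, val]

theorem cntL_seg {s : ℕ → ℕ → Bool} {t N n v : ℕ} (h : Nat.pair N n ≤ t) :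
    cntL (seg (fun i => (join s i).toNat) t) N n v = cnt N n v s := by
  induction N with
  | zero => rfl
  | succ N ih =>
    have h1 : Nat.pair N n < Nat.pair (N + 1) n := Nat.pair_lt_pair_left _ (Nat.lt_succ_self N)
    have h2 := ih (by omega)
    have h3 : cntL (seg (fun i => (join s i).toNat) t) (N + 1) n v =
        cntL (seg (fun i => (join s i).toNat) t) N n v +
          if valJ (seg (fun i => (join s i).toNat) t) N n < v then 1 else 0 := rfl
    rw [h3, h2, valJ_seg (by omega), cnt_succ]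

/-- the precision used -/
def prec (m₀ : ℕ) (q : ℕ × ℕ × ℕ) : ℕ := max (q.1 + 1) (max m₀ q.2.1)

/-- the search -/
def ThetaS (m₀ : ℕ) (ρ : List ℕ) (q : ℕ × ℕ × ℕ) : Option ℕ :=
  if Nat.pair (32 ^ prec m₀ q) q.2.1 ≤ ρ.length then
    some ((2 * (cntL ρ (32 ^ prec m₀ q) q.2.1 q.2.2 * 2 ^ q.1) + 32 ^ prec m₀ q) /
      (2 * 32 ^ prec m₀ q))
  else none

theorem prec_primrec (m₀ : ℕ) : Primrec (prec m₀) :=
  Primrec.nat_max.comp (Primrec.succ.comp Primrec.fst)
    (Primrec.nat_max.comp (Primrec.const m₀) (Primrec.fst.comp Primrec.snd))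

theorem thetaS_primrec (m₀ : ℕ) : Primrec₂ (ThetaS m₀) := by
  have hr : Primrec fun x : List ℕ × (ℕ × ℕ × ℕ) => x.1 := Primrec.fst
  have hq : Primrec fun x : List ℕ × (ℕ × ℕ × ℕ) => x.2 := Primrec.snd
  have hN : Primrec fun x : List ℕ × (ℕ × ℕ × ℕ) => 32 ^ prec m₀ x.2 :=
    pow_primrec 32 ((prec_primrec m₀).comp hq)
  have hk : Primrec fun x : List ℕ × (ℕ × ℕ × ℕ) => 2 ^ x.2.1 :=
    pow_primrec 2 (Primrec.fst.comp hq)
  have hn : Primrec fun x : List ℕ × (ℕ × ℕ × ℕ) => x.2.2.1 :=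
    Primrec.fst.comp (Primrec.snd.comp hq)
  have hv : Primrec fun x : List ℕ × (ℕ × ℕ × ℕ) => x.2.2.2 :=
    Primrec.snd.comp (Primrec.snd.comp hq)
  refine Primrec.ite (Primrec.nat_le.comp (Primrec₂.natPair.comp hN hn)
    (Primrec.list_length.comp hr)) ?_ (Primrec.const none)
  refine Primrec.option_some.comp (Primrec.nat_div.comp ?_
    (Primrec.nat_mul.comp (Primrec.const 2) hN))
  exact Primrec.nat_add.comp (Primrec.nat_mul.comp (Primrec.const 2)
    (Primrec.nat_mul.comp (cntL_primrec hr hN hn hv) hk)) hN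

/-- rounding to the nearest integer -/
theorem round_bound (C K M : ℕ) (hM : 0 < M) (hK : 0 < K) :
    |(((2 * (C * K) + M) / (2 * M) : ℕ) : ℝ) / K - (C : ℝ) / M| ≤ 1 / (2 * K) := by
  set a := (2 * (C * K) + M) / (2 * M) with ha
  have h1 : 2 * M * a + (2 * (C * K) + M) % (2 * M) = 2 * (C * K) + M := Nat.div_add_mod _ _
  have h2 : (2 * (C * K) + M) % (2 * M) < 2 * M := Nat.mod_lt _ (by omega)
  have h3 : 2 * M * a ≤ 2 * (C * K) + M := by omega
  have h4 : 2 * (C * K) + M ≤ 2 * M * a + 2 * M := by omega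
  have h3' : (2 : ℝ) * M * a ≤ 2 * (C * K) + M := by exact_mod_cast h3
  have h4' : (2 : ℝ) * (C * K) + M ≤ 2 * M * a + 2 * M := by exact_mod_cast h4
  have hM' : (0 : ℝ) < M := by exact_mod_cast hM
  have hK' : (0 : ℝ) < K := by exact_mod_cast hK
  have e : (a : ℝ) / K - (C : ℝ) / M = (2 * M * a - 2 * (C * K)) / (2 * K * M) := by
    field_simp
  have e2 : (1 : ℝ) / (2 * K) = M / (2 * K * M) := by
    field_simp
  rw [e, e2, abs_div, abs_of_pos (show (0 : ℝ) < 2 * K * M by positivity)]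
  apply div_le_div_of_nonneg_right _ (by positivity)
  rw [abs_le]
  constructor <;> linarith

theorem computes_of_accurate (ν : Measure (ℕ → Bool)) [IsProbabilityMeasure ν] {s : ℕ → ℕ → Bool}
    {z : ℕ → Bool} (hs : Accurate ν s) (h : TuringReducible (chi (join s)) (chi z)) :
    Computes z ν := by
  obtain ⟨m₀, hm₀⟩ := hs
  let X : ℕ → ℕ := fun i => (join s i).toNat
  let a : ℕ × ℕ × ℕ → ℕ := fun q =>
    (2 * (cnt (32 ^ prec m₀ q) q.2.1 q.2.2 s * 2 ^ q.1) + 32 ^ prec m₀ q) / (2 * 32 ^ prec m₀ q)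
  refine ⟨a, ?_, ?_⟩
  · have hS := search_rec X (thetaS_primrec m₀)
    have hval : ∀ q t, Nat.pair (32 ^ prec m₀ q) q.2.1 ≤ t →
        ThetaS m₀ (seg X t) q = some (a q) := by
      intro q t ht
      unfold ThetaS
      rw [if_pos (by rw [seg_length]; exact ht), cntL_seg ht]
    have key : ∀ q, Nat.rfindOpt (fun t => ThetaS m₀ (seg X t) q) = Part.some (a q) := by
      intro q
      apply Part.eq_some_iff.2
      rw [mem_rfindOpt]
      · exact ⟨_, hval q _ le_rfl⟩
      · intro t t' v htt' hv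
        have h1 : Nat.pair (32 ^ prec m₀ q) q.2.1 ≤ t := by
          by_contra hc
          unfold ThetaS at hv
          rw [if_neg (by rw [seg_length]; exact hc)] at hv
          cases hv
        rw [hval q t h1] at hv
        rw [hval q t' (h1.trans htt')]
        exact hv
    have h1 : RecursiveIn {chi (join s)} fun q => Part.some (a q) :=
      RecursiveIn.of_eq hS key
    show RecursiveIn {chi z} fun q => Part.some (a q)
    refine RecursiveIn.subst h1 ?_
    intro g hg
    rw [Set.mem_singleton_iff.1 hg]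
    exact h
  · intro k n v hv
    set m := prec m₀ (k, n, v) with hm
    have h1 : k + 1 ≤ m := le_max_left _ _
    have h2 : m₀ ≤ m := (le_max_left _ _).trans (le_max_right _ _)
    have h3 : n ≤ m := (le_max_right m₀ n).trans (le_max_right _ _)
    have h4 := hm₀ m h2 n h3 v hv
    have h5 := round_bound (cnt (32 ^ m) n v s) (2 ^ k) (32 ^ m) (by positivity) (by positivity)
    have h6 : (1 : ℝ) / 2 ^ m ≤ 1 / (2 * 2 ^ k) := by
      rw [show (2 : ℝ) * 2 ^ k = 2 ^ (k + 1) by ring]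
      exact one_div_le_one_div_of_le (by positivity) (pow_le_pow_right₀ (by norm_num) h1)
    have h7 : (1 : ℝ) / 2 ^ k = 1 / (2 * 2 ^ k) + 1 / (2 * 2 ^ k) := by
      field_simp
      norm_num
    push_cast at h5
    have h8 : a (k, n, v) = (2 * (cnt (32 ^ m) n v s * 2 ^ k) + 32 ^ m) / (2 * 32 ^ m) := rfl
    rw [h8, h7]
    calc |(((2 * (cnt (32 ^ m) n v s * 2 ^ k) + 32 ^ m) / (2 * 32 ^ m) : ℕ) : ℝ) / 2 ^ k
          - cdf ν n v|
        ≤ |(((2 * (cnt (32 ^ m) n v s * 2 ^ k) + 32 ^ m) / (2 * 32 ^ m) : ℕ) : ℝ) / 2 ^ k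
          - (cnt (32 ^ m) n v s : ℝ) / 32 ^ m| +
          |(cnt (32 ^ m) n v s : ℝ) / 32 ^ m - cdf ν n v| := abs_sub_le _ _ _
      _ ≤ 1 / (2 * 2 ^ k) + 1 / (2 * 2 ^ k) := add_le_add h5 (h4.trans h6)

end Pool.Agent.Lib.MP_75b31c_lc.H40
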