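import Pool.Agent.Lib.MP_75b31c_lc.H40.Theta
import Pool.Agent.Lib.MP_75b31c_lc.H40.Cdf

set_option autoImplicit false

/-!
The transport lemma.
-/

namespace Pool.Agent.Lib.MP_75b31c_lc.H40

open MeasureTheory Filter Topology
open Pool.Agent.Lib.MP_f26228_lc (seg seg_length seg_getElem? seg_prefix seg_take)
open Pool.Agent.Lib.MP_f7c71a_lc (nrec_prim nrec_comp nrec_pair search_rec)

/-- the combined oracle: the bits of `z` and the values of `a` -/
def Xo (z : ℕ → Bool) (a : ℕ × ℕ × ℕ → ℕ) (t : ℕ) : ℕ :=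
  if t.unpair.1 = 0 then (z t.unpair.2).toNat
  else a (t.unpair.2.unpair.1, t.unpair.2.unpair.2.unpair.1, t.unpair.2.unpair.2.unpair.2)

theorem Xo_zero (z : ℕ → Bool) (a : ℕ × ℕ × ℕ → ℕ) (i : ℕ) :
    Xo z a (Nat.pair 0 i) = (z i).toNat := by simp [Xo]

theorem Xo_idx (z : ℕ → Bool) (a : ℕ × ℕ × ℕ → ℕ) (m n v : ℕ) :
    Xo z a (idx m n v) = a (m, n, v) := by simp [Xo, idx]

theorem Xo_rec {z : ℕ → Bool} {a : ℕ × ℕ × ℕ → ℕ} (ha : ComputableIn {chi z} a) :
    Nat.RecursiveIn {chi z} fun t => Part.some (Xo z a t) := by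
  set O : Set (ℕ →. ℕ) := {chi z} with hO
  have h1 : Nat.RecursiveIn O fun t => Part.some (a (t.unpair.1, t.unpair.2.unpair.1,
      t.unpair.2.unpair.2)) := by
    have := ha
    unfold ComputableIn RecursiveIn at this
    refine this.of_eq fun n => ?_
    simp
  have h0 : Nat.RecursiveIn O fun t => Part.some (z t).toNat := .oracle _ rfl
  have h2 : Nat.RecursiveIn O fun t => Part.some (z t.unpair.2).toNat :=
    nrec_comp (g := fun t => t.unpair.2) h0 (nrec_prim (Primrec.snd.comp Primrec.unpair))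
  have h3 : Nat.RecursiveIn O fun t => Part.some (a (t.unpair.2.unpair.1,
      t.unpair.2.unpair.2.unpair.1, t.unpair.2.unpair.2.unpair.2)) :=
    nrec_comp (g := fun t => t.unpair.2) h1 (nrec_prim (Primrec.snd.comp Primrec.unpair))
  have h4 := nrec_pair (f := fun t : ℕ => t.unpair.1)
    (nrec_prim (Primrec.fst.comp Primrec.unpair)) (nrec_pair h2 h3)
  let S : ℕ → ℕ := fun y => if y.unpair.1 = 0 then y.unpair.2.unpair.1 else y.unpair.2.unpair.2
  have hS : Primrec S := by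
    refine Primrec.ite (Primrec.eq.comp (Primrec.fst.comp Primrec.unpair) (Primrec.const 0)) ?_ ?_
    · exact Primrec.fst.comp (Primrec.unpair.comp (Primrec.snd.comp Primrec.unpair))
    · exact Primrec.snd.comp (Primrec.unpair.comp (Primrec.snd.comp Primrec.unpair))
  refine (nrec_comp (g := _) (nrec_prim hS) h4).of_eq fun t => ?_
  simp [S, Xo]

theorem seg_getD (X : ℕ → ℕ) {t i : ℕ} (h : i < t) : (seg X t).getD i 0 = X i := by
  rw [List.getD_eq_getElem?_getD, seg_getElem?, if_pos h]; rfl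

theorem valL_seg {z : ℕ → Bool} {a : ℕ × ℕ × ℕ → ℕ} {t m : ℕ} (h : Nat.pair 0 m ≤ t) :
    valL (seg (Xo z a) t) m = val m z := by
  induction m with
  | zero => rfl
  | succ m ih =>
    have h1 : Nat.pair 0 m < Nat.pair 0 (m + 1) := Nat.pair_lt_pair_right _ (Nat.lt_succ_self m)
    have h2 := ih (by omega)
    have h3 : valL (seg (Xo z a) t) (m + 1) =
        2 * valL (seg (Xo z a) t) m + (seg (Xo z a) t).getD (Nat.pair 0 m) 0 := rfl
    rw [h3, h2, seg_getD _ (by omega), Xo_zero]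
    rfl

section
variable (ν : Measure (ℕ → Bool)) [IsProbabilityMeasure ν] {z z' : ℕ → Bool}
  {a : ℕ × ℕ × ℕ → ℕ} (ha : ∀ k n v : ℕ, v ≤ 2 ^ n → |(a (k, n, v) : ℝ) / 2 ^ k - cdf ν n v| ≤ 1 / 2 ^ k)
  {p d q₁ q₂ : ℕ}
include ha

theorem upper_bound {k n v : ℕ} (h : v ≤ 2 ^ n) : cdf ν n v * 2 ^ k ≤ a (k, n, v) + 1 := by
  have h1 := (abs_le.1 (ha k n v h)).1
  have h2 : (0 : ℝ) < 2 ^ k := by positivity
  have h3 : cdf ν n v ≤ (a (k, n, v) : ℝ) / 2 ^ k + 1 / 2 ^ k := by linarith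
  calc cdf ν n v * 2 ^ k ≤ ((a (k, n, v) : ℝ) / 2 ^ k + 1 / 2 ^ k) * 2 ^ k :=
        mul_le_mul_of_nonneg_right h3 h2.le
    _ = a (k, n, v) + 1 := by field_simp

theorem lower_bound {k n v : ℕ} (h : v ≤ 2 ^ n) : (a (k, n, v) : ℝ) ≤ cdf ν n v * 2 ^ k + 1 := by
  have h1 := (abs_le.1 (ha k n v h)).2
  have h2 : (0 : ℝ) < 2 ^ k := by positivity
  have h3 : (a (k, n, v) : ℝ) / 2 ^ k ≤ cdf ν n v + 1 / 2 ^ k := by linarith
  calc (a (k, n, v) : ℝ) = (a (k, n, v) : ℝ) / 2 ^ k * 2 ^ k := by field_simp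
    _ ≤ (cdf ν n v + 1 / 2 ^ k) * 2 ^ k := mul_le_mul_of_nonneg_right h3 h2.le
    _ = cdf ν n v * 2 ^ k + 1 := by field_simp

/-- a passed test gives the right value -/
theorem test_sound (hd : 0 < d) (h : (d : ℝ) * G ν z' + q₂ = p * G ν z + q₁) {n m v t : ℕ}
    (ht : Test p d q₁ q₂ (seg (Xo z a) t) n m v (val m z)) : v = val (n + 1) z' := by
  obtain ⟨h0, h1, h2, h3, h4, h5, h6, h7⟩ := ht
  rw [seg_length] at h0 h1 h2 h3 h4
  rw [seg_getD _ h3, seg_getD _ h1, Xo_idx, Xo_idx] at h6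
  rw [seg_getD _ h2, seg_getD _ h4, Xo_idx, Xo_idx] at h7
  have e6 : (d : ℝ) * (a (m, n + 1, v) + 1) + q₂ * 2 ^ m + p <
      p * a (m, m, val m z) + q₁ * 2 ^ m := by exact_mod_cast h6
  have e7 : (p : ℝ) * (a (m, m, val m z + 1) + 1) + q₁ * 2 ^ m + d <
      d * a (m, n + 1, v + 1) + q₂ * 2 ^ m := by exact_mod_cast h7
  have hz := val_lt m z
  have u1 := upper_bound ν ha (k := m) (n := n + 1) (v := v) h5.le
  have l1 := lower_bound ν ha (k := m) (n := m) (v := val m z) hz.le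
  have u2 := upper_bound ν ha (k := m) (n := m) (v := val m z + 1) hz
  have l2 := lower_bound ν ha (k := m) (n := n + 1) (v := v + 1) h5
  have g1 := cdf_le_G ν m z
  have g2 := G_le_cdf ν m z
  have P : (0 : ℝ) < 2 ^ m := by positivity
  have hdp : (0 : ℝ) < d := by exact_mod_cast hd
  have hp0 : (0 : ℝ) ≤ p := by positivity
  have hd0 : (0 : ℝ) ≤ d := hdp.le
  have k1 : cdf ν (n + 1) v < G ν z' := by
    have a1 : (d : ℝ) * (cdf ν (n + 1) v * 2 ^ m) ≤ d * (a (m, n + 1, v) + 1) :=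
      mul_le_mul_of_nonneg_left u1 hd0
    have a2 : (p : ℝ) * a (m, m, val m z) ≤ p * (cdf ν m (val m z) * 2 ^ m + 1) :=
      mul_le_mul_of_nonneg_left l1 hp0
    have a3 : (p : ℝ) * (cdf ν m (val m z) * 2 ^ m) ≤ p * (G ν z * 2 ^ m) :=
      mul_le_mul_of_nonneg_left (mul_le_mul_of_nonneg_right g1 P.le) hp0
    have a4 : ((d : ℝ) * cdf ν (n + 1) v) * 2 ^ m < (d * G ν z') * 2 ^ m := by
      have : ((d : ℝ) * G ν z') * 2 ^ m = (p * G ν z + q₁ - q₂) * 2 ^ m := by rw [← h]; ring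
      rw [this]
      nlinarith
    have a5 := lt_of_mul_lt_mul_right a4 P.le
    exact lt_of_mul_lt_mul_left a5 hd0
  have k2 : G ν z' < cdf ν (n + 1) (v + 1) := by
    have a1 : (d : ℝ) * a (m, n + 1, v + 1) ≤ d * (cdf ν (n + 1) (v + 1) * 2 ^ m + 1) :=
      mul_le_mul_of_nonneg_left l2 hd0
    have a2 : (p : ℝ) * (cdf ν m (val m z + 1) * 2 ^ m) ≤ p * (a (m, m, val m z + 1) + 1) :=
      mul_le_mul_of_nonneg_left u2 hp0
    have a3 : (p : ℝ) * (G ν z * 2 ^ m) ≤ p * (cdf ν m (val m z + 1) * 2 ^ m) :=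
      mul_le_mul_of_nonneg_left (mul_le_mul_of_nonneg_right g2 P.le) hp0
    have a4 : (d * G ν z') * 2 ^ m < ((d : ℝ) * cdf ν (n + 1) (v + 1)) * 2 ^ m := by
      have : ((d : ℝ) * G ν z') * 2 ^ m = (p * G ν z + q₁ - q₂) * 2 ^ m := by rw [← h]; ring
      rw [this]
      nlinarith
    have a5 := lt_of_mul_lt_mul_right a4 P.le
    exact lt_of_mul_lt_mul_left a5 hd0
  have g3 := cdf_le_G ν (n + 1) z'
  have g4 := G_le_cdf ν (n + 1) z'
  by_contra hne
  rcases lt_or_gt_of_ne hne with hlt | hgt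
  · have := cdf_mono ν (n + 1) (Nat.succ_le_of_lt hlt)
    linarith
  · have := cdf_mono ν (n + 1) (Nat.succ_le_of_lt hgt)
    linarith

/-- the test is passed eventually -/
theorem test_complete (hν : ∀ z, ν {z} = 0) (hz' : Regular ν z') (hp : 0 < p) (hd : 0 < d)
    (h : (d : ℝ) * G ν z' + q₂ = p * G ν z + q₁) (n : ℕ) :
    ∃ m, d * (a (m, n + 1, val (n + 1) z') + 1) + q₂ * 2 ^ m + p <
        p * a (m, m, val m z) + q₁ * 2 ^ m ∧
      p * (a (m, m, val m z + 1) + 1) + q₁ * 2 ^ m + d <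
        d * a (m, n + 1, val (n + 1) z' + 1) + q₂ * 2 ^ m := by
  set v := val (n + 1) z' with hv
  have hvl : v < 2 ^ (n + 1) := val_lt _ _
  obtain ⟨r1, r2⟩ := hz' (n + 1)
  rw [← hv] at r1 r2
  have hdp : (0 : ℝ) < d := by exact_mod_cast hd
  have hpp : (0 : ℝ) < p := by exact_mod_cast hp
  -- limits
  have hT1 := tendsto_cdf_lower ν hν z
  have hT2 := tendsto_cdf_upper ν hν z
  have hT3 : Tendsto (fun m : ℕ => (1 / 2 : ℝ) ^ m) atTop (𝓝 0) :=
    tendsto_pow_atTop_nhds_zero_of_lt_one (by norm_num) (by norm_num)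
  have E1 : Tendsto (fun m : ℕ => (p : ℝ) * cdf ν m (val m z) + q₁ -
      (2 * d + 2 * p) * (1 / 2 : ℝ) ^ m) atTop (𝓝 (p * G ν z + q₁ - (2 * d + 2 * p) * 0)) :=
    ((hT1.const_mul _).add_const _).sub (hT3.const_mul _)
  have E2 : Tendsto (fun m : ℕ => (p : ℝ) * cdf ν m (val m z + 1) + q₁ +
      (2 * d + 2 * p) * (1 / 2 : ℝ) ^ m) atTop (𝓝 (p * G ν z + q₁ + (2 * d + 2 * p) * 0)) :=
    ((hT2.const_mul _).add_const _).add (hT3.const_mul _)
  have b1 : (d : ℝ) * cdf ν (n + 1) v + q₂ < p * G ν z + q₁ - (2 * d + 2 * p) * 0 := by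
    rw [← h]; nlinarith
  have b2 : (p : ℝ) * G ν z + q₁ + (2 * d + 2 * p) * 0 < d * cdf ν (n + 1) (v + 1) + q₂ := by
    rw [← h]; nlinarith
  have F1 := E1.eventually (lt_mem_nhds b1)
  have F2 := E2.eventually (gt_mem_nhds b2)
  obtain ⟨m, hm1, hm2⟩ := (F1.and F2).exists
  refine ⟨m, ?_, ?_⟩
  · have l1 := lower_bound ν ha (k := m) (n := n + 1) (v := v) hvl.le
    have u1 := upper_bound ν ha (k := m) (n := m) (v := val m z) (val_lt m z).le
    have P : (0 : ℝ) < 2 ^ m := by positivity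
    have hP : (1 / 2 : ℝ) ^ m * 2 ^ m = 1 := by rw [← mul_pow]; norm_num
    have a1 : ((d : ℝ) * cdf ν (n + 1) v + q₂) * 2 ^ m <
        (p * cdf ν m (val m z) + q₁ - (2 * d + 2 * p) * (1 / 2 : ℝ) ^ m) * 2 ^ m :=
      mul_lt_mul_of_pos_right hm1 P
    have a2 : (p * cdf ν m (val m z) + q₁ - (2 * d + 2 * p) * (1 / 2 : ℝ) ^ m) * 2 ^ m =
        p * (cdf ν m (val m z) * 2 ^ m) + q₁ * 2 ^ m - (2 * d + 2 * p) * ((1 / 2 : ℝ) ^ m * 2 ^ m) := by
      ring
    rw [a2, hP] at a1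
    have a3 : (d : ℝ) * a (m, n + 1, v) ≤ d * (cdf ν (n + 1) v * 2 ^ m + 1) :=
      mul_le_mul_of_nonneg_left l1 hdp.le
    have a4 : (p : ℝ) * (cdf ν m (val m z) * 2 ^ m) ≤ p * (a (m, m, val m z) + 1) :=
      mul_le_mul_of_nonneg_left u1 hpp.le
    have : (d : ℝ) * (a (m, n + 1, v) + 1) + q₂ * 2 ^ m + p <
      p * a (m, m, val m z) + q₁ * 2 ^ m := by nlinarith
    exact_mod_cast this
  · have u1 := lower_bound ν ha (k := m) (n := m) (v := val m z + 1) (val_lt m z)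
    have l1 := upper_bound ν ha (k := m) (n := n + 1) (v := v + 1) hvl
    have P : (0 : ℝ) < 2 ^ m := by positivity
    have hP : (1 / 2 : ℝ) ^ m * 2 ^ m = 1 := by rw [← mul_pow]; norm_num
    have a1 : (p * cdf ν m (val m z + 1) + q₁ + (2 * d + 2 * p) * (1 / 2 : ℝ) ^ m) * 2 ^ m <
        ((d : ℝ) * cdf ν (n + 1) (v + 1) + q₂) * 2 ^ m :=
      mul_lt_mul_of_pos_right hm2 P
    have a2 : (p * cdf ν m (val m z + 1) + q₁ + (2 * d + 2 * p) * (1 / 2 : ℝ) ^ m) * 2 ^ m =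
        p * (cdf ν m (val m z + 1) * 2 ^ m) + q₁ * 2 ^ m + (2 * d + 2 * p) * ((1 / 2 : ℝ) ^ m * 2 ^ m) := by
      ring
    rw [a2, hP] at a1
    have a3 : (p : ℝ) * a (m, m, val m z + 1) ≤ p * (cdf ν m (val m z + 1) * 2 ^ m + 1) :=
      mul_le_mul_of_nonneg_left u1 hpp.le
    have a4 : (d : ℝ) * (cdf ν (n + 1) (v + 1) * 2 ^ m) ≤ d * (a (m, n + 1, v + 1) + 1) :=
      mul_le_mul_of_nonneg_left l1 hdp.le
    have : (p : ℝ) * (a (m, m, val m z + 1) + 1) + q₁ * 2 ^ m + d <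
      d * a (m, n + 1, v + 1) + q₂ * 2 ^ m := by nlinarith
    exact_mod_cast this

end

theorem transport (ν : Measure (ℕ → Bool)) [IsProbabilityMeasure ν] (hν : ∀ z, ν {z} = 0)
    {z z' : ℕ → Bool} (hz : Computes z ν) (hz' : Regular ν z') (p d q₁ q₂ : ℕ) (hp : 0 < p)
    (hd : 0 < d) (h : (d : ℝ) * G ν z' + q₂ = p * G ν z + q₁) :
    TuringReducible (chi z') (chi z) := by
  obtain ⟨a, hac, ha⟩ := hz
  have hX := Xo_rec hac
  have hS := search_rec (Xo z a) (theta_primrec p d q₁ q₂)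
  have key : ∀ n, Nat.rfindOpt (fun t => Theta p d q₁ q₂ (seg (Xo z a) t) n) = chi z' n := by
    intro n
    have sound : ∀ t b, Theta p d q₁ q₂ (seg (Xo z a) t) n = some b → b = (z' n).toNat := by
      intro t b hb
      unfold Theta at hb
      split_ifs at hb with hT
      have h0 := hT.1
      rw [seg_length] at h0
      rw [valL_seg (by rw [seg_length]; exact h0)] at hT
      have hv := test_sound ν ha hd h hT
      rw [hv] at hb
      have : val (n + 1) z' % 2 = (z' n).toNat := by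
        have e : val (n + 1) z' = 2 * val n z' + (z' n).toNat := rfl
        rw [e]
        cases z' n <;> simp [Nat.add_mod]
      rw [← this]
      exact (Option.some.inj hb).symm
    obtain ⟨m, hm1, hm2⟩ := test_complete ν ha hν hz' hp hd h n
    set v := val (n + 1) z' with hv
    obtain ⟨B, hB⟩ : ∃ B, Nat.pair 0 m ≤ B ∧ idx m m (val m z) < B ∧ idx m m (val m z + 1) < B ∧
        idx m (n + 1) v < B ∧ idx m (n + 1) (v + 1) < B :=
      ⟨Nat.pair 0 m + idx m m (val m z) + idx m m (val m z + 1) + idx m (n + 1) v +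
        idx m (n + 1) (v + 1) + 1, by omega, by omega, by omega, by omega, by omega⟩
    obtain ⟨B0, B1, B2, B3, B4⟩ := hB
    set t := Nat.pair (Nat.pair m v) B with ht
    have hBt : B ≤ t := Nat.right_le_pair _ _
    have hdom : ∃ t b, Theta p d q₁ q₂ (seg (Xo z a) t) n = some b := by
      refine ⟨t, v % 2, ?_⟩
      unfold Theta
      rw [if_pos]
      · simp [seg_length, ht]
      · have e1 : (seg (Xo z a) t).length.unpair.1.unpair.1 = m := by simp [seg_length, ht]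
        have e2 : (seg (Xo z a) t).length.unpair.1.unpair.2 = v := by simp [seg_length, ht]
        rw [e1, e2, valL_seg (by omega)]
        refine ⟨?_, ?_, ?_, ?_, ?_, val_lt _ _, ?_, ?_⟩
        · rw [seg_length]; omega
        · rw [seg_length]; omega
        · rw [seg_length]; omega
        · rw [seg_length]; omega
        · rw [seg_length]; omega
        · rw [seg_getD _ (by omega), seg_getD _ (by omega), Xo_idx, Xo_idx]
          exact hm1
        · rw [seg_getD _ (by omega), seg_getD _ (by omega), Xo_idx, Xo_idx]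
          exact hm2
    have hd' : (Nat.rfindOpt (fun t => Theta p d q₁ q₂ (seg (Xo z a) t) n)).Dom := by
      rw [Nat.rfindOpt_dom]
      obtain ⟨t, b, hb⟩ := hdom
      exact ⟨t, b, hb⟩
    obtain ⟨w, hw⟩ := Part.dom_iff_mem.1 hd'
    obtain ⟨s, hs⟩ := Nat.rfindOpt_spec hw
    have := sound s w hs
    rw [this] at hw
    exact Part.eq_some_iff.2 hw
  have h1 : RecursiveIn {fun n => Part.some (Xo z a n)} (chi z') := by
    refine RecursiveIn.of_eq hS fun n => ?_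
    exact key n
  refine RecursiveIn.subst h1 ?_
  intro g hg
  rw [Set.mem_singleton_iff.1 hg]
  exact RecursiveIn.iff_nat.2 hX

end Pool.Agent.Lib.MP_75b31c_lc.H40
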