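import Pool.Agent.Lib.MP_75b31c_lc.H40.AccG
import Pool.Agent.Lib.MP_75b31c_lc.H40.Gap
import Pool.Agent.Lib.MP_75b31c_lc.H40.Trans
import Pool.Agent.Lib.MP_75b31c_lc.H40.Samp
import Pool.Agent.Lib.MP_75b31c_lc.H40.MeasC
import Pool.Agent.Lib.MP_75b31c_lc.H74.Sel
import Pool.Agent.Lib.MP_75b31c_lc.H74.Dens

set_option autoImplicit false

/-!
Theorems A and B.
-/

namespace Pool.Agent.Lib.MP_75b31c_lc.H40

open MeasureTheory Filter Topology
open Pool.Agent.Lib.MP_75b31c_lc.H74

/-- the two transports along `t ↦ (t + x₀) / 2` -/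
theorem turingEquivalent_of_half (ν : Measure (ℕ → Bool)) [IsProbabilityMeasure ν]
    (hν : ∀ z, ν {z} = 0) {z z' : ℕ → Bool} (hz : Computes z ν) (hz' : Computes z' ν)
    (rz : Regular ν z) (rz' : Regular ν z') (x₀ : ℚ) (h : G ν z' = (G ν z + x₀) / 2) :
    TuringEquivalent (chi z) (chi z') := by
  have hden : 0 < x₀.den := x₀.den_pos
  have hd : (0 : ℝ) < x₀.den := by exact_mod_cast hden
  have hx : (x₀ : ℝ) * x₀.den = x₀.num := by
    have := Rat.mul_den_eq_num x₀
    exact_mod_cast this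
  have hn : ((x₀.num.toNat : ℕ) : ℝ) - (((-x₀.num).toNat : ℕ) : ℝ) = x₀.num := by
    have h1 : ((x₀.num.toNat : ℕ) : ℤ) - (((-x₀.num).toNat : ℕ) : ℤ) = x₀.num := by omega
    exact_mod_cast h1
  have h2 : 2 * G ν z' = G ν z + x₀ := by rw [h]; ring
  have h3 : 2 * (x₀.den : ℝ) * G ν z' = x₀.den * G ν z + x₀.num := by
    rw [← hx]
    linear_combination (x₀.den : ℝ) * h2
  constructor
  · -- `z ≤ z'`
    refine transport ν hν hz' rz (2 * x₀.den) x₀.den (-x₀.num).toNat x₀.num.toNat (by omega)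
      hden ?_
    push_cast
    linarith
  · refine transport ν hν hz rz' x₀.den (2 * x₀.den) x₀.num.toNat (-x₀.num).toNat hden (by omega) ?_
    push_cast
    linarith

theorem thmA (Γ : Type) [Group Γ] [Countable Γ] (X : Type) [MeasurableSpace X]
    [StandardBorelSpace X] [MulAction Γ X] (hact : ∀ γ : Γ, Measurable fun x : X => γ • x)
    (μ : Measure X) [IsProbabilityMeasure μ] (hμ : ∀ γ : Γ, μ.map (fun x : X => γ • x) = μ)
    (Y : Set X) (hY : MeasurableSet Y) (hY1 : μ Yᶜ = 0) (f : X → ℕ → Bool) (hf : Measurable f)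
    (hred : ∀ x ∈ Y, ∀ y ∈ Y, TuringEquivalent (chi (f x)) (chi (f y)) → ∃ γ : Γ, γ • x = y)
    (ν : Measure (ℕ → Bool)) [IsProbabilityMeasure ν] (hν : ∀ z, ν {z} = 0) :
    (μ.restrict {x | Computes (f x) ν}).map f ⟂ₘ ν := by
  set B : Set X := {x | Computes (f x) ν} with hB
  have hBm : MeasurableSet B := hf (measurableSet_computes ν)
  set lam : Measure (ℕ → Bool) := (μ.restrict B).map f with hlam
  -- Lebesgue decomposition
  have hsing : lam.singularPart ν ⟂ₘ ν := Measure.mutuallySingular_singularPart lam ν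
  obtain ⟨S', hS', hS1, hS2⟩ := hsing
  -- `S'` is null for the singular part and conull for `ν`
  have hac : ∀ N : Set (ℕ → Bool), MeasurableSet N → ν N = 0 → lam (S' ∩ N) = 0 := by
    intro N hN hN0
    have h1 : lam = lam.singularPart ν + ν.withDensity (lam.rnDeriv ν) :=
      Measure.haveLebesgueDecomposition_add lam ν
    have h2 : lam.singularPart ν (S' ∩ N) = 0 := measure_mono_null Set.inter_subset_left hS1
    have h3 : ν.withDensity (lam.rnDeriv ν) (S' ∩ N) = 0 :=
      withDensity_absolutelyContinuous ν _ (measure_mono_null Set.inter_subset_right hN0)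
    rw [h1, Measure.add_apply, h2, h3, add_zero]
  by_cases h0 : lam S' = 0
  · exact ⟨S', hS', h0, hS2⟩
  exfalso
  set R : Set (ℕ → Bool) := {z | Regular ν z} with hR
  have hRm : MeasurableSet R := measurableSet_regular ν
  have hR0 : ν Rᶜ = 0 := ae_regular ν hν
  set B' : Set X := Y ∩ (B ∩ f ⁻¹' (S' ∩ R)) with hB'
  have hB'm : MeasurableSet B' := hY.inter (hBm.inter (hf (hS'.inter hRm)))
  have hlamB : ∀ N : Set (ℕ → Bool), MeasurableSet N → lam N = μ (B ∩ f ⁻¹' N) := by
    intro N hN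
    rw [hlam, Measure.map_apply hf hN, Measure.restrict_apply (hf hN), Set.inter_comm]
  have hB'0 : μ B' ≠ 0 := by
    intro hc
    apply h0
    have h1 : lam (S' ∩ R) = 0 := by
      rw [hlamB _ (hS'.inter hRm)]
      have : B ∩ f ⁻¹' (S' ∩ R) ⊆ B' ∪ Yᶜ := by
        intro x hx
        by_cases hxY : x ∈ Y
        · exact Or.inl ⟨hxY, hx⟩
        · exact Or.inr hxY
      exact measure_mono_null this (measure_union_null hc hY1)
    have h2 : lam (S' ∩ Rᶜ) = 0 := hac _ hRm.compl hR0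
    have : S' ⊆ (S' ∩ R) ∪ (S' ∩ Rᶜ) := by
      intro z hz
      by_cases hzR : z ∈ R
      · exact Or.inl ⟨hz, hzR⟩
      · exact Or.inr ⟨hz, hzR⟩
    exact measure_mono_null this (measure_union_null h1 h2)
  set h : X → ℝ := fun x => G ν (f x) with hh
  have hhm : Measurable h := (measurable_G ν).comp hf
  have hfib : ∀ x ∈ B', ∀ y ∈ B', h x = h y → ∃ γ : Γ, γ • x = y := by
    intro x hx y hy hxy
    apply hred x hx.1 y hy.1
    have : f x = f y := regular_inj hx.2.2.2 hy.2.2.2 hxy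
    rw [this]
  obtain ⟨X₀, hX₀, hX₀B, hinj, hT, hX₀0⟩ :=
    selection Γ X hact μ hμ B' hB'm hB'0 h hhm hfib
  set T : Set ℝ := h '' X₀ with hTdef
  set m : Measure ℝ := (μ.restrict X₀).map h with hm
  have hmap : ∀ N : Set ℝ, MeasurableSet N → m N = μ (X₀ ∩ h ⁻¹' N) := by
    intro N hN
    rw [hm, Measure.map_apply hhm hN, Measure.restrict_apply (hhm hN), Set.inter_comm]
  have hmac : m ≪ volume := by
    refine Measure.AbsolutelyContinuous.mk fun N hN hN0 => ?_
    rw [hmap N hN]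
    have h1 : ν (G ν ⁻¹' N) = 0 := by
      rw [← Measure.map_apply (measurable_G ν) hN, map_G ν hν, Measure.restrict_apply hN]
      exact measure_mono_null Set.inter_subset_left hN0
    have h2 := hac _ (measurable_G ν hN) h1
    rw [hlamB _ (hS'.inter (measurable_G ν hN))] at h2
    refine measure_mono_null ?_ h2
    rintro x ⟨hx, hxN⟩
    have := hX₀B hx
    exact ⟨this.2.1, this.2.2.1, hxN⟩
  have hm0 : m ≠ 0 := by
    intro hc
    have : m Set.univ = 0 := by rw [hc]; rfl
    rw [hmap _ MeasurableSet.univ] at this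
    apply hX₀0
    simpa using this
  have hmT : m Tᶜ = 0 := by
    rw [hmap _ hT.compl]
    have : X₀ ∩ h ⁻¹' Tᶜ = ∅ := by
      ext x
      simp only [Set.mem_inter_iff, Set.mem_preimage, Set.mem_compl_iff,
        Set.mem_empty_iff_false, iff_false, not_and, not_not]
      intro hx
      exact ⟨x, hx, rfl⟩
    rw [this, measure_empty]
  have : IsFiniteMeasure m := by rw [hm]; infer_instance
  obtain ⟨x₀, D, hD, hDT, hDT', hlt⟩ := density_lemma m hmac hm0 hT hmT
  set r : ℝ → ℝ := fun t => (t + x₀) / 2 with hr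
  have hrm : Measurable r := by fun_prop
  have hri : Function.Injective r := by
    intro a b hab
    have : (a + x₀) / 2 = (b + x₀) / 2 := hab
    linarith
  have hrD : MeasurableSet (r '' D) := by
    have : r '' D = (fun s : ℝ => 2 * s - x₀) ⁻¹' D := by
      ext s
      simp only [Set.mem_image, Set.mem_preimage]
      constructor
      · rintro ⟨t, ht, rfl⟩
        have : 2 * r t - x₀ = t := by simp only [hr]; ring
        rw [this]; exact ht
      · intro hs
        refine ⟨_, hs, ?_⟩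
        simp only [hr]; ring
    rw [this]
    have hms : Measurable fun s : ℝ => 2 * s - x₀ := by fun_prop
    exact hms hD
  have hle := orbit_map_le Γ X hact μ hμ X₀ hX₀ h hhm hinj r hrm hri D hD hrD ?_
  · rw [← hmap D hD, ← hmap _ hrD] at hle
    exact absurd hlt (not_lt.2 hle)
  · intro x hx hxD
    have h1 : r (h x) ∈ T := hDT' ⟨h x, hxD, rfl⟩
    obtain ⟨y, hy, hyr⟩ := h1
    refine ⟨y, hy, hyr, ?_⟩
    have hxB := hX₀B hx
    have hyB := hX₀B hy
    apply hred x hxB.1 y hyB.1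
    exact turingEquivalent_of_half ν hν hxB.2.1 hyB.2.1 hxB.2.2.2 hyB.2.2.2 x₀ hyr

theorem coin_singleton (b : Bool) : coin {b} = 2⁻¹ := by
  cases b <;> simp [coin]

theorem coinPi_singleton {Γ : Type} [Infinite Γ] (x : Γ → Bool) : coinPi Γ {x} = 0 := by
  have h : ∀ n : ℕ, coinPi Γ {x} ≤ (2⁻¹ : ENNReal) ^ n := by
    intro n
    obtain ⟨s, hs⟩ := Infinite.exists_subset_card_eq Γ n
    have h1 : ({x} : Set (Γ → Bool)) ⊆ Set.pi (s : Set Γ) fun i => {x i} := by
      rintro y rfl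
      intro i _
      rfl
    calc coinPi Γ {x} ≤ coinPi Γ (Set.pi (s : Set Γ) fun i => {x i}) := measure_mono h1
      _ = ∏ i ∈ s, coin {x i} := by
          unfold coinPi
          exact Measure.infinitePi_pi _ (fun i _ => measurableSet_singleton _)
      _ = (2⁻¹ : ENNReal) ^ n := by simp [coin_singleton, hs]
  have h2 : Tendsto (fun n : ℕ => (2⁻¹ : ENNReal) ^ n) atTop (𝓝 0) :=
    ENNReal.tendsto_pow_atTop_nhds_zero_of_lt_one (by
      rw [ENNReal.inv_lt_one]; norm_num)
  exact le_antisymm (ge_of_tendsto' h2 h) zero_le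

theorem exists_pow_le {κ : ℝ} (h0 : 0 ≤ κ) (h1 : κ < 1) : ∃ q : ℕ, κ ^ q ≤ 1 / 32 := by
  have h := tendsto_pow_atTop_nhds_zero_of_lt_one h0 h1
  have h2 := h.eventually (gt_mem_nhds (show (0 : ℝ) < 1 / 32 by norm_num))
  obtain ⟨q, hq⟩ := h2.exists
  exact ⟨q, hq.le⟩

/-- the law of a reduction has no atoms -/
theorem law_atomless (Γ : Type) [Group Γ] [Countable Γ] (X : Type) [MeasurableSpace X]
    [StandardBorelSpace X] [MulAction Γ X] (μ : Measure X) [IsProbabilityMeasure μ]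
    (hatom : ∀ x : X, μ {x} = 0) (Y : Set X) (hY1 : μ Yᶜ = 0)
    (f : X → ℕ → Bool) (hf : Measurable f)
    (hred : ∀ x ∈ Y, ∀ y ∈ Y, TuringEquivalent (chi (f x)) (chi (f y)) → ∃ γ : Γ, γ • x = y) :
    ∀ z, (μ.map f) {z} = 0 := by
  intro z
  rw [Measure.map_apply hf (measurableSet_singleton _)]
  have h1 : μ (Y ∩ f ⁻¹' {z}) = 0 := by
    rcases (Y ∩ f ⁻¹' {z}).eq_empty_or_nonempty with he | ⟨x, hx⟩
    · rw [he, measure_empty]
    · have hsub : Y ∩ f ⁻¹' {z} ⊆ ⋃ g : Γ, {g • x} := by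
        intro y hy
        have hxy : f x = f y := by
          rw [show f x = z from hx.2, show f y = z from hy.2]
        obtain ⟨g, hg⟩ := hred x hx.1 y hy.1 (by rw [hxy])
        exact Set.mem_iUnion.2 ⟨g, hg.symm⟩
      refine measure_mono_null hsub ?_
      rw [measure_iUnion_null_iff]
      intro g
      exact hatom _
  refine measure_mono_null (t := (Y ∩ f ⁻¹' {z}) ∪ Yᶜ) ?_ (measure_union_null h1 hY1)
  intro x hx
  by_cases hxY : x ∈ Y
  · exact Or.inl ⟨hxY, hx⟩
  · exact Or.inr hxY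

/-- a reduction does not compute its own law -/
theorem not_computes_law (Γ : Type) [Group Γ] [Countable Γ] (X : Type) [MeasurableSpace X]
    [StandardBorelSpace X] [MulAction Γ X] (hact : ∀ γ : Γ, Measurable fun x : X => γ • x)
    (μ : Measure X) [IsProbabilityMeasure μ] (hμ : ∀ γ : Γ, μ.map (fun x : X => γ • x) = μ)
    (hatom : ∀ x : X, μ {x} = 0) (Y : Set X) (hY : MeasurableSet Y) (hY1 : μ Yᶜ = 0)
    (f : X → ℕ → Bool) (hf : Measurable f)
    (hred : ∀ x ∈ Y, ∀ y ∈ Y, TuringEquivalent (chi (f x)) (chi (f y)) → ∃ γ : Γ, γ • x = y) :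
    ∀ᵐ x ∂μ, ¬ Computes (f x) (μ.map f) := by
  have hν := law_atomless Γ X μ hatom Y hY1 f hf hred
  set ν : Measure (ℕ → Bool) := μ.map f with hνdef
  have : IsProbabilityMeasure ν := Measure.isProbabilityMeasure_map hf.aemeasurable
  have hA := thmA Γ X hact μ hμ Y hY hY1 f hf hred ν hν
  set B : Set X := {x | Computes (f x) ν} with hB
  have hBm : MeasurableSet B := hf (measurableSet_computes ν)
  have hle : (μ.restrict B).map f ≪ ν := by
    rw [hνdef]
    exact (Measure.absolutelyContinuous_of_le Measure.restrict_le_self).map hf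
  have hzero : (μ.restrict B).map f = 0 :=
    Measure.eq_zero_of_absolutelyContinuous_of_mutuallySingular hle hA
  have hB0 : μ B = 0 := by
    have h1 : (μ.restrict B).map f Set.univ = 0 := by rw [hzero]; rfl
    rw [Measure.map_apply hf MeasurableSet.univ, Measure.restrict_apply (hf MeasurableSet.univ)] at h1
    simpa using h1
  rw [ae_iff]
  simpa using hB0

/-- Theorem B for sequences with an exponential rate along powers of `r` -/
theorem thmB_gen (Γ : Type) [Group Γ] [Countable Γ] (X : Type) [MeasurableSpace X]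
    [StandardBorelSpace X] [MulAction Γ X] (hact : ∀ γ : Γ, Measurable fun x : X => γ • x)
    (μ : Measure X) [IsProbabilityMeasure μ] (hμ : ∀ γ : Γ, μ.map (fun x : X => γ • x) = μ)
    (hatom : ∀ x : X, μ {x} = 0) (γ : ℕ → Γ) (r : ℕ) (hr : 0 < r) (κ K : ℝ) (hκ0 : 0 ≤ κ)
    (hκ : κ < 1)
    (hrate : ∀ C : Set X, MeasurableSet C → ∀ m : ℕ, ∫ x, ((∑ j ∈ Finset.range (r ^ m),
      C.indicator (fun _ => (1 : ℝ)) (γ j • x)) / (r : ℝ) ^ m - μ.real C) ^ 2 ∂μ ≤ K * κ ^ m)
    (Y : Set X) (hY : MeasurableSet Y) (hY1 : μ Yᶜ = 0) (f : X → ℕ → Bool) (hf : Measurable f)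
    (hred : ∀ x ∈ Y, ∀ y ∈ Y, TuringEquivalent (chi (f x)) (chi (f y)) → ∃ γ : Γ, γ • x = y) :
    ∀ᵐ x ∂μ, ¬ TuringReducible (chi (join fun j => f (γ j • x))) (chi (f x)) := by
  have hK : 0 ≤ K := by
    have h1 := hrate ∅ MeasurableSet.empty 0
    have h2 : 0 ≤ ∫ x, ((∑ j ∈ Finset.range (r ^ 0), (∅ : Set X).indicator (fun _ => (1 : ℝ))
      (γ j • x)) / (r : ℝ) ^ 0 - μ.real ∅) ^ 2 ∂μ := integral_nonneg fun x => sq_nonneg _
    linarith [h2.trans h1]
  obtain ⟨q, hq⟩ := exists_pow_le hκ0 hκ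
  have hacc := ae_accurate_gen X μ (fun j x => γ j • x) (fun j => hact (γ j)) (r ^ q)
    (by positivity) (κ ^ q) K (by positivity) hq hK (fun C hC m => by
      have h1 := hrate C hC (q * m)
      rw [pow_mul, pow_mul, pow_mul] at h1
      push_cast
      exact h1) f hf
  have : IsProbabilityMeasure (μ.map f) := Measure.isProbabilityMeasure_map hf.aemeasurable
  filter_upwards [not_computes_law Γ X hact μ hμ hatom Y hY hY1 f hf hred, hacc] with x hx hxa hxr
  exact hx (computes_of_accurateR (by positivity) (μ.map f) hxa hxr)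

/-- Theorem C: words in a finite set with spectral gap -/
theorem thmC (Γ : Type) [Group Γ] [Countable Γ] (X : Type) [MeasurableSpace X]
    [StandardBorelSpace X] [MulAction Γ X] (hact : ∀ γ : Γ, Measurable fun x : X => γ • x)
    (μ : Measure X) [IsProbabilityMeasure μ] (hμ : ∀ γ : Γ, μ.map (fun x : X => γ • x) = μ)
    (hatom : ∀ x : X, μ {x} = 0) (r : ℕ) (hr : 2 ≤ r) (s : ℕ → Γ) (hs : s 0 = 1)
    (hgap : SpectralGap μ r s)
    (Y : Set X) (hY : MeasurableSet Y) (hY1 : μ Yᶜ = 0) (f : X → ℕ → Bool) (hf : Measurable f)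
    (hred : ∀ x ∈ Y, ∀ y ∈ Y, TuringEquivalent (chi (f x)) (chi (f y)) → ∃ γ : Γ, γ • x = y) :
    ∀ᵐ x ∂μ, ¬ TuringReducible (chi (join fun j => f (word r s j • x))) (chi (f x)) := by
  obtain ⟨κ, hκ0, hκ, hrate⟩ := gap_rate hact μ hμ hr hs hgap
  exact thmB_gen Γ X hact μ hμ hatom (word r s) r (by omega) κ 1 hκ0 hκ
    (fun C hC m => by rw [one_mul]; exact hrate C hC m) Y hY hY1 f hf hred

/-- Theorem B -/
theorem thmB (Γ : Type) [Group Γ] [Countable Γ] (γ : ℕ → Γ)
    (hγ : Function.Injective (FreeGroup.lift γ : FreeGroup ℕ →* Γ))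
    (Y : Set (Γ → Bool)) (hY : MeasurableSet Y) (hY1 : coinPi Γ Yᶜ = 0) (f : (Γ → Bool) → ℕ → Bool)
    (hf : Measurable f)
    (hred : ∀ x ∈ Y, ∀ y ∈ Y, TuringEquivalent (chi (f x)) (chi (f y)) → ∃ g : Γ, shift g x = y) :
    ∀ᵐ x ∂(coinPi Γ), ¬ TuringReducible (chi (join fun j => f (shift (γ j) x))) (chi (f x)) := by
  have hinf : Infinite Γ := Infinite.of_injective _ hγ
  let act : MulAction Γ (Γ → Bool) :=
    { smul := fun g x => shift g x
      one_smul := fun x => by
        funext δ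
        show x ((1 : Γ)⁻¹ * δ) = x δ
        simp
      mul_smul := fun a b x => by
        funext δ
        show x ((a * b)⁻¹ * δ) = x (b⁻¹ * (a⁻¹ * δ))
        rw [mul_inv_rev, mul_assoc] }
  refine thmB_gen Γ (Γ → Bool) (fun g => (measurePreserving_shift g).measurable) (coinPi Γ)
    (fun g => (measurePreserving_shift g).map_eq) coinPi_singleton γ 2 (by norm_num) (1 / 2) 16
    (by norm_num) (by norm_num) ?_ Y hY hY1 f hf hred
  intro C hC m
  have h1 := variance Γ γ hγ C hC (2 ^ m) (by positivity)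
  push_cast at h1
  refine le_trans h1 (le_of_eq ?_)
  rw [div_pow, one_pow, mul_one_div]

end Pool.Agent.Lib.MP_75b31c_lc.H40
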