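import Pool.Agent.Lib.MP_75b31c_lc.H40.Defs
import Pool.Agent.Lib.MP_f7c71a_lc.Oracle

set_option autoImplicit false

/-!
The search used in the transport lemma is primitive recursive in initial segments of the oracle.
-/

namespace Pool.Agent.Lib.MP_75b31c_lc.H40

/-- position of `a (m, n, v)` in the combined oracle -/
def idx (m n v : ℕ) : ℕ := Nat.pair 1 (Nat.pair m (Nat.pair n v))

/-- `val m z` read off an initial segment of the combined oracle -/
def valL (ρ : List ℕ) (m : ℕ) : ℕ := m.rec 0 fun i V => 2 * V + ρ.getD (Nat.pair 0 i) 0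

/-- the test of the transport lemma -/
def Test (p d q₁ q₂ : ℕ) (ρ : List ℕ) (n m v V : ℕ) : Prop :=
  Nat.pair 0 m ≤ ρ.length ∧ idx m m V < ρ.length ∧ idx m m (V + 1) < ρ.length ∧
    idx m (n + 1) v < ρ.length ∧ idx m (n + 1) (v + 1) < ρ.length ∧ v < 2 ^ (n + 1) ∧
    d * (ρ.getD (idx m (n + 1) v) 0 + 1) + q₂ * 2 ^ m + p < p * ρ.getD (idx m m V) 0 + q₁ * 2 ^ m ∧
    p * (ρ.getD (idx m m (V + 1)) 0 + 1) + q₁ * 2 ^ m + d <
      d * ρ.getD (idx m (n + 1) (v + 1)) 0 + q₂ * 2 ^ m

instance (p d q₁ q₂ : ℕ) (ρ : List ℕ) (n m v V : ℕ) : Decidable (Test p d q₁ q₂ ρ n m v V) := by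
  unfold Test; infer_instance

/-- one step of the search -/
def Theta (p d q₁ q₂ : ℕ) (ρ : List ℕ) (n : ℕ) : Option ℕ :=
  if Test p d q₁ q₂ ρ n ρ.length.unpair.1.unpair.1 ρ.length.unpair.1.unpair.2
    (valL ρ ρ.length.unpair.1.unpair.1) then some (ρ.length.unpair.1.unpair.2 % 2) else none

theorem idx_primrec {α : Type} [Primcodable α] {f g h : α → ℕ} (hf : Primrec f) (hg : Primrec g)
    (hh : Primrec h) : Primrec fun a => idx (f a) (g a) (h a) :=
  Primrec₂.natPair.comp (Primrec.const 1) (Primrec₂.natPair.comp hf (Primrec₂.natPair.comp hg hh))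

theorem getD_primrec {α : Type} [Primcodable α] {f : α → List ℕ} {g : α → ℕ} (hf : Primrec f)
    (hg : Primrec g) : Primrec fun a => (f a).getD (g a) 0 :=
  (Primrec.list_getD 0).comp hf hg

theorem valL_primrec {α : Type} [Primcodable α] {f : α → List ℕ} {g : α → ℕ} (hf : Primrec f)
    (hg : Primrec g) : Primrec fun a => valL (f a) (g a) := by
  unfold valL
  refine Primrec.nat_rec' (f := g) (g := fun _ => 0)
    (h := fun a (y : ℕ × ℕ) => 2 * y.2 + (f a).getD (Nat.pair 0 y.1) 0) hg (Primrec.const 0) ?_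
  refine Primrec.nat_add.comp (Primrec.nat_mul.comp (Primrec.const 2)
    (Primrec.snd.comp Primrec.snd)) ?_
  exact getD_primrec (hf.comp Primrec.fst)
    (Primrec₂.natPair.comp (Primrec.const 0) (Primrec.fst.comp Primrec.snd))

theorem pow_primrec {α : Type} [Primcodable α] {g : α → ℕ} (b : ℕ) (hg : Primrec g) :
    Primrec fun a => b ^ g a := by
  have : Primrec fun a => (Nat.rec 1 (fun _ y => y * b) (g a) : ℕ) := by
    refine Primrec.nat_rec' (f := g) (g := fun _ => 1)
      (h := fun _ (y : ℕ × ℕ) => y.2 * b) hg (Primrec.const 1) ?_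
    exact Primrec.nat_mul.comp (Primrec.snd.comp Primrec.snd) (Primrec.const b)
  refine this.of_eq fun a => ?_
  induction g a with
  | zero => simp
  | succ n ih => simp only [ih, pow_succ]

theorem test_primrec {α : Type} [Primcodable α] (p d q₁ q₂ : ℕ) {r : α → List ℕ}
    {n m v V : α → ℕ} (hr : Primrec r) (hn : Primrec n) (hm : Primrec m) (hv : Primrec v)
    (hV : Primrec V) : PrimrecPred fun a => Test p d q₁ q₂ (r a) (n a) (m a) (v a) (V a) := by
  have hl : Primrec fun a => (r a).length := Primrec.list_length.comp hr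
  have hn1 : Primrec fun a => n a + 1 := Primrec.succ.comp hn
  have hv1 : Primrec fun a => v a + 1 := Primrec.succ.comp hv
  have hV1 : Primrec fun a => V a + 1 := Primrec.succ.comp hV
  have i1 := idx_primrec hm hm hV
  have i2 := idx_primrec hm hm hV1
  have i3 := idx_primrec hm hn1 hv
  have i4 := idx_primrec hm hn1 hv1
  have c : ∀ b : ℕ, Primrec fun _ : α => b := fun b => Primrec.const b
  have mul : ∀ {f g : α → ℕ}, Primrec f → Primrec g → Primrec fun a => f a * g a :=
    fun hf hg => Primrec.nat_mul.comp hf hg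
  have add : ∀ {f g : α → ℕ}, Primrec f → Primrec g → Primrec fun a => f a + g a :=
    fun hf hg => Primrec.nat_add.comp hf hg
  have lt : ∀ {f g : α → ℕ}, Primrec f → Primrec g → PrimrecPred fun a => f a < g a :=
    fun hf hg => Primrec.nat_lt.comp hf hg
  have le : ∀ {f g : α → ℕ}, Primrec f → Primrec g → PrimrecPred fun a => f a ≤ g a :=
    fun hf hg => Primrec.nat_le.comp hf hg
  have p2 := pow_primrec 2 hm
  refine PrimrecPred.and (le (Primrec₂.natPair.comp (c 0) hm) hl) (PrimrecPred.and (lt i1 hl)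
    (PrimrecPred.and (lt i2 hl) (PrimrecPred.and (lt i3 hl) (PrimrecPred.and (lt i4 hl)
    (PrimrecPred.and (lt hv (pow_primrec 2 hn1)) (PrimrecPred.and (lt ?_ ?_) (lt ?_ ?_)))))))
  · exact add (add (mul (c d) (add (getD_primrec hr i3) (c 1))) (mul (c q₂) p2)) (c p)
  · exact add (mul (c p) (getD_primrec hr i1)) (mul (c q₁) p2)
  · exact add (add (mul (c p) (add (getD_primrec hr i2) (c 1))) (mul (c q₁) p2)) (c d)
  · exact add (mul (c d) (getD_primrec hr i4)) (mul (c q₂) p2)

theorem theta_primrec (p d q₁ q₂ : ℕ) : Primrec₂ (Theta p d q₁ q₂) := by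
  have hr : Primrec fun x : List ℕ × ℕ => x.1 := Primrec.fst
  have hl : Primrec fun x : List ℕ × ℕ => x.1.length := Primrec.list_length.comp hr
  have hj : Primrec fun x : List ℕ × ℕ => x.1.length.unpair.1.unpair :=
    Primrec.unpair.comp (Primrec.fst.comp (Primrec.unpair.comp hl))
  have hm : Primrec fun x : List ℕ × ℕ => x.1.length.unpair.1.unpair.1 := Primrec.fst.comp hj
  have hv : Primrec fun x : List ℕ × ℕ => x.1.length.unpair.1.unpair.2 := Primrec.snd.comp hj
  refine Primrec.ite (test_primrec p d q₁ q₂ hr Primrec.snd hm hv (valL_primrec hr hm)) ?_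
    (Primrec.const none)
  exact Primrec.option_some.comp (Primrec.nat_mod.comp hv (Primrec.const 2))

end Pool.Agent.Lib.MP_75b31c_lc.H40
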