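import Pool.Agent.Lib.MP_75b31c_lc.H40.Gap
import Pool.Agent.Lib.MP_75b31c_lc.H40.Theta

set_option autoImplicit false

/-!
If finitely many Turing functionals compute `f (s i • y)` from `f y` for all points `y` of the orbit
of `x` then `f x` computes the join of all `f (w • x)`, `w` a word in the `s i`.
-/

namespace Pool.Agent.Lib.MP_75b31c_lc.H40

open MeasureTheory Filter Topology
open Encodable
open Pool.Agent.Lib.MP_f26228_lc (seg seg_length seg_getElem? seg_prefix seg_take)
open Pool.Agent.Lib.MP_f7c71a_lc (nrec_prim nrec_comp nrec_pair seg_rec)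

theorem nrec_computable {O : Set (ℕ →. ℕ)} {f : ℕ → ℕ} (hf : Computable f) :
    Nat.RecursiveIn O (fun n => Part.some (f n)) := by
  have h : Nat.Partrec (fun n => Part.some (f n)) := by
    have h1 : Partrec (fun n => Part.some (f n)) := hf
    exact Partrec.nat_iff.1 h1
  exact Nat.Partrec.recursiveIn h

/-- search over initial segments, computable version -/
theorem search_rec_comp {α σ : Type} [Primcodable α] [Primcodable σ] (X : ℕ → ℕ)
    {Θ : List ℕ → α → Option σ} (hΘ : Computable₂ Θ) :
    RecursiveIn {fun n => Part.some (X n)} (fun a => Nat.rfindOpt (fun t => Θ (seg X t) a)) := by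
  set O : Set (ℕ →. ℕ) := {fun n => Part.some (X n)} with hO
  -- `W (pair (encode ρ) a)` is `0` or `encode + 1`
  let W : ℕ → Option σ := fun p =>
    (decode (α := α) p.unpair.2).bind fun a => Θ ((decode (α := List ℕ) p.unpair.1).getD []) a
  have hW : Computable W := by
    refine Computable.option_bind
      ((Primrec.decode.comp (Primrec.snd.comp Primrec.unpair)).to_comp) ?_
    refine hΘ.comp ?_ Computable.snd
    exact (Primrec.option_getD.comp
      (Primrec.decode.comp (Primrec.fst.comp (Primrec.unpair.comp Primrec.fst)))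
      (Primrec.const [])).to_comp
  let T : ℕ → ℕ := fun p => bif (W p).isSome then 0 else 1
  have hT : Computable T := Computable.cond (Primrec.option_isSome.to_comp.comp hW)
    (Computable.const 0) (Computable.const 1)
  let V : ℕ → ℕ := fun p => ((W p).map encode).getD 0
  have hV : Computable V := by
    have h1 : Computable fun p => (W p).map encode :=
      Computable.option_map hW (Computable.encode.comp Computable.snd)
    exact Primrec.option_getD.to_comp.comp h1 (Computable.const 0)
  have hs : Nat.RecursiveIn O (fun p => Part.some (Nat.pair (encode (seg X p.unpair.2)) p.unpair.1)) := by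
    refine nrec_pair ?_ (nrec_prim (Primrec.fst.comp Primrec.unpair))
    exact nrec_comp (g := fun p => p.unpair.2) (seg_rec X)
      (nrec_prim (Primrec.snd.comp Primrec.unpair))
  have h1 : Nat.RecursiveIn O
      (fun p => Part.some (T (Nat.pair (encode (seg X p.unpair.2)) p.unpair.1))) :=
    nrec_comp (f := fun n => Part.some (T n))
      (g := fun p => Nat.pair (encode (seg X p.unpair.2)) p.unpair.1) (nrec_computable hT) hs
  have h2 : Nat.RecursiveIn O
      (fun p => Part.some (V (Nat.pair (encode (seg X p.unpair.2)) p.unpair.1))) :=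
    nrec_comp (f := fun n => Part.some (V n))
      (g := fun p => Nat.pair (encode (seg X p.unpair.2)) p.unpair.1) (nrec_computable hV) hs
  have h3 := Nat.RecursiveIn.rfind h1
  have h4 : Nat.RecursiveIn O (fun n : ℕ => (Part.some n : Part ℕ)) := nrec_prim Primrec.id
  have h5 := Nat.RecursiveIn.comp h2 (Nat.RecursiveIn.pair h4 h3)
  have key : ∀ n : ℕ, ((Nat.pair <$> (Part.some n : Part ℕ) <*>
      Nat.rfind fun t => (fun m => decide (m = 0)) <$>
        (Part.some (T (Nat.pair (encode (seg X (Nat.pair n t).unpair.2)) (Nat.pair n t).unpair.1))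
          : Part ℕ)) >>=
      fun p => Part.some (V (Nat.pair (encode (seg X p.unpair.2)) p.unpair.1))) =
      ((decode (α := α) n : Part α).bind fun a =>
        (Nat.rfindOpt fun t => Θ (seg X t) a).map encode) := ?_
  · exact Nat.RecursiveIn.of_eq h5 key
  intro n
  apply Part.ext
  intro b
  simp only [Seq.seq, Part.map_eq_map, Part.bind_eq_bind, Part.mem_bind_iff, Part.mem_map_iff,
    Part.mem_some_iff, Nat.mem_rfind, Nat.unpair_pair]
  simp only [Part.mem_ofOption, Option.mem_def]
  have e1 : ∀ t, W (Nat.pair (encode (seg X t)) n) =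
      (decode (α := α) n).bind fun a => Θ (seg X t) a := by
    intro t; simp [W]
  have e2 : ∀ t, T (Nat.pair (encode (seg X t)) n) = 0 ↔
      ((decode (α := α) n).bind fun a => Θ (seg X t) a).isSome = true := by
    intro t
    simp only [T, e1]
    cases ((decode (α := α) n).bind fun a => Θ (seg X t) a).isSome <;> simp
  constructor
  · rintro ⟨x, ⟨_, ⟨n', hn', rfl⟩, t, ⟨⟨y, hy, hy'⟩, hm⟩, rfl⟩, hb⟩
    have hn'' := hn'.symm
    subst hn''
    subst hy
    simp only [Nat.unpair_pair] at hb
    have ht := (e2 t).1 (by simpa using hy')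
    cases hd : decode (α := α) n with
    | none => rw [hd] at ht; simp at ht
    | some a =>
      rw [hd] at ht
      simp only [Option.bind_some] at ht
      obtain ⟨z, hz⟩ := Option.isSome_iff_exists.1 ht
      refine ⟨a, rfl, z, ?_, ?_⟩
      · have hmin : ∀ m < t, Θ (seg X m) a = none := by
          intro m hmt
          obtain ⟨y, hy, hy'⟩ := hm hmt
          subst hy
          have := mt (e2 m).2 (by simpa using hy')
          rw [hd] at this
          simpa using this
        rw [Nat.rfindOpt]
        refine Part.mem_bind_iff.2 ⟨t, ?_, ?_⟩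
        · rw [Nat.mem_rfind]
          refine ⟨by simp [hz], fun {m} hmt => by simp [hmin m hmt]⟩
        · simp [hz]
      · rw [hb]
        simp [V, e1, hd, hz]
  · rintro ⟨a, hd, z, hz, rfl⟩
    rw [Nat.rfindOpt] at hz
    obtain ⟨t, ht, hz⟩ := Part.mem_bind_iff.1 hz
    rw [Nat.mem_rfind] at ht
    have hz' : Θ (seg X t) a = some z := by simpa using hz
    refine ⟨Nat.pair n t, ⟨_, ⟨n, rfl, rfl⟩, t, ⟨⟨_, rfl, ?_⟩, ?_⟩, rfl⟩, ?_⟩
    · simp only [decide_eq_true_eq]
      exact (e2 t).2 (by rw [hd]; simp [hz'])
    · intro m hmt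
      refine ⟨_, rfl, ?_⟩
      have h6 := ht.2 hmt
      simp only [Part.coe_some, Part.mem_some_iff] at h6
      simp only [decide_eq_false_iff_not]
      rw [e2 m, hd]
      simp only [Option.bind_some]
      intro h7
      rw [h7] at h6
      cases h6
    · simp [V, e1, hd, hz']

/-- the initial segment of length `t` of `z` -/
def pre (z : ℕ → Bool) (t : ℕ) : List Bool := (List.range t).map z

/-- With the oracle `z` the functional `Φ` computes `y`: for every `n`, the first answer which
`Φ` gives to the question `n` along the initial segments of `z` is the bit `y n`. -/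
def Outputs (Φ : List Bool → ℕ → Option Bool) (z y : ℕ → Bool) : Prop :=
  ∀ n, ∃ t, Φ (pre z t) n = some (y n) ∧ ∀ u, u < t → Φ (pre z u) n = none

theorem pre_length (z : ℕ → Bool) (t : ℕ) : (pre z t).length = t := by simp [pre]

theorem pre_take (z : ℕ → Bool) {t u : ℕ} (h : u ≤ t) : (pre z t).take u = pre z u := by
  unfold pre
  rw [← List.map_take, List.take_range, min_eq_left h]

theorem pre_succ (z : ℕ → Bool) (t : ℕ) : pre z (t + 1) = pre z t ++ [z t] := by
  simp [pre, List.range_succ]

/-- the first answer along the initial segments of `σ` -/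
def firstAns (Ψ : ℕ × List Bool × ℕ → Option Bool) (i : ℕ) (σ : List Bool) (n : ℕ) :
    Option Bool :=
  (σ.length + 1).rec none fun u acc => acc <|> Ψ (i, σ.take u, n)

/-- the string computed from the string `σ` -/
def app (Ψ : ℕ × List Bool × ℕ → Option Bool) (i : ℕ) (σ : List Bool) : List Bool :=
  σ.length.rec [] fun _ acc => acc ++ (firstAns Ψ i σ acc.length).toList

/-- iterated application along the base `r` digits of `j`, the most significant digit first -/
def runs (Ψ : ℕ × List Bool × ℕ → Option Bool) (r j : ℕ) (σ : List Bool) : List Bool :=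
  j.rec σ fun k acc => app Ψ (j / r ^ (j - 1 - k) % r) acc

theorem firstAns_comp {α : Type} [Primcodable α] {Ψ : ℕ × List Bool × ℕ → Option Bool}
    (hΨ : Computable Ψ) {i n : α → ℕ} {σ : α → List Bool} (hi : Computable i)
    (hσ : Computable σ) (hn : Computable n) :
    Computable fun a => firstAns Ψ (i a) (σ a) (n a) := by
  have h1 : Computable fun w : α × (ℕ × Option Bool) =>
      ((i w.1, (σ w.1).take w.2.1, n w.1) : ℕ × List Bool × ℕ) := by
    refine Computable.pair (hi.comp Computable.fst) (Computable.pair ?_ (hn.comp Computable.fst))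
    exact Primrec.list_take.to_comp.comp (Computable.fst.comp Computable.snd)
      (hσ.comp Computable.fst)
  have h2 : Computable fun w : α × (ℕ × Option Bool) =>
      (w.2.2 <|> Ψ (i w.1, (σ w.1).take w.2.1, n w.1)) :=
    Primrec.option_orElse.to_comp.comp (Computable.snd.comp Computable.snd) (hΨ.comp h1)
  exact Computable.nat_rec (f := fun a => (σ a).length + 1) (g := fun _ => (none : Option Bool))
    (h := fun a (y : ℕ × Option Bool) => y.2 <|> Ψ (i a, (σ a).take y.1, n a))
    (Computable.succ.comp (Computable.list_length.comp hσ)) (Computable.const none) h2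

/-- one step -/
def stepA (Ψ : ℕ × List Bool × ℕ → Option Bool) (i : ℕ) (σ acc : List Bool) : List Bool :=
  acc ++ (firstAns Ψ i σ acc.length).toList

theorem stepA_comp {α : Type} [Primcodable α] {Ψ : ℕ × List Bool × ℕ → Option Bool}
    (hΨ : Computable Ψ) {i : α → ℕ} {σ acc : α → List Bool} (hi : Computable i)
    (hσ : Computable σ) (ha : Computable acc) :
    Computable fun a => stepA Ψ (i a) (σ a) (acc a) := by
  have h1 : Computable fun a => firstAns Ψ (i a) (σ a) (acc a).length :=
    firstAns_comp hΨ hi hσ (Computable.list_length.comp ha)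
  have h2 : Computable fun o : Option Bool => o.toList :=
    (Primrec.dom_finite (fun o : Option Bool => o.toList)).to_comp
  have h3 : Computable fun a => (firstAns Ψ (i a) (σ a) (acc a).length).toList := h2.comp h1
  exact Computable.list_append.comp ha h3

theorem app_comp {α : Type} [Primcodable α] {Ψ : ℕ × List Bool × ℕ → Option Bool}
    (hΨ : Computable Ψ) {i : α → ℕ} {σ : α → List Bool} (hi : Computable i)
    (hσ : Computable σ) :
    Computable fun a => app Ψ (i a) (σ a) := by
  have h1 : Computable fun w : α × (ℕ × List Bool) => stepA Ψ (i w.1) (σ w.1) w.2.2 :=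
    stepA_comp hΨ (hi.comp Computable.fst) (hσ.comp Computable.fst)
      (Computable.snd.comp Computable.snd)
  exact Computable.nat_rec (f := fun a => (σ a).length) (g := fun _ => ([] : List Bool))
    (h := fun a (y : ℕ × List Bool) => stepA Ψ (i a) (σ a) y.2)
    (Computable.list_length.comp hσ) (Computable.const []) h1

theorem dig_primrec {α : Type} [Primcodable α] (r : ℕ) {f g : α → ℕ} (hf : Primrec f)
    (hg : Primrec g) : Primrec fun a => f a / r ^ (f a - 1 - g a) % r := by
  have h1 : Primrec fun a => f a - 1 - g a :=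
    Primrec.nat_sub.comp (Primrec.nat_sub.comp hf (Primrec.const 1)) hg
  have h2 : Primrec fun a => r ^ (f a - 1 - g a) := pow_primrec r h1
  have h3 : Primrec fun a => f a / r ^ (f a - 1 - g a) := Primrec.nat_div.comp hf h2
  exact Primrec.nat_mod.comp h3 (Primrec.const r)

/-- one step -/
def stepR (Ψ : ℕ × List Bool × ℕ → Option Bool) (r j k : ℕ) (acc : List Bool) : List Bool :=
  app Ψ (j / r ^ (j - 1 - k) % r) acc

theorem stepR_comp {α : Type} [Primcodable α] {Ψ : ℕ × List Bool × ℕ → Option Bool}
    (hΨ : Computable Ψ) (r : ℕ) {j k : α → ℕ} {acc : α → List Bool} (hj : Primrec j)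
    (hk : Primrec k) (ha : Computable acc) :
    Computable fun a => stepR Ψ r (j a) (k a) (acc a) :=
  app_comp hΨ (dig_primrec r hj hk).to_comp ha

theorem runs_comp {α : Type} [Primcodable α] {Ψ : ℕ × List Bool × ℕ → Option Bool}
    (hΨ : Computable Ψ) (r : ℕ) {j : α → ℕ} {σ : α → List Bool} (hj : Primrec j)
    (hσ : Computable σ) :
    Computable fun a => runs Ψ r (j a) (σ a) := by
  have h1 : Computable fun w : α × (ℕ × List Bool) => stepR Ψ r (j w.1) w.2.1 w.2.2 :=
    stepR_comp hΨ r (hj.comp Primrec.fst) (Primrec.fst.comp Primrec.snd)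
      (Computable.snd.comp Computable.snd)
  exact Computable.nat_rec (f := j) (g := σ)
    (h := fun a (y : ℕ × List Bool) => stepR Ψ r (j a) y.1 y.2) hj.to_comp hσ h1

theorem firstAns_aux (Ψ : ℕ × List Bool × ℕ → Option Bool) (i : ℕ) {z : ℕ → Bool} {t n t₁ : ℕ}
    {b : Bool} (h1 : Ψ (i, pre z t₁, n) = some b) (h2 : ∀ u, u < t₁ → Ψ (i, pre z u, n) = none)
    (k : ℕ) (hk : k ≤ t + 1) :
    (k.rec none fun u acc => acc <|> Ψ (i, (pre z t).take u, n) : Option Bool) =
      if t₁ < k then some b else none := by
  induction k with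
  | zero => simp
  | succ k ih =>
    have e : ((k + 1).rec none fun u acc => acc <|> Ψ (i, (pre z t).take u, n) : Option Bool) =
        ((k.rec none fun u acc => acc <|> Ψ (i, (pre z t).take u, n) : Option Bool) <|>
          Ψ (i, (pre z t).take k, n)) := rfl
    rw [e, ih (by omega), pre_take z (by omega : k ≤ t)]
    by_cases hk1 : t₁ < k
    · rw [if_pos hk1, if_pos (by omega)]; rfl
    · rw [if_neg hk1]
      by_cases hk2 : t₁ = k
      · subst hk2
        rw [if_pos (by omega), h1]; rfl
      · rw [if_neg (by omega), h2 k (by omega)]; rfl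

theorem firstAns_eq (Ψ : ℕ × List Bool × ℕ → Option Bool) (i : ℕ) {z : ℕ → Bool} {n t₁ : ℕ}
    {b : Bool} (h1 : Ψ (i, pre z t₁, n) = some b) (h2 : ∀ u, u < t₁ → Ψ (i, pre z u, n) = none)
    (t : ℕ) : firstAns Ψ i (pre z t) n = if t₁ ≤ t then some b else none := by
  unfold firstAns
  rw [pre_length, firstAns_aux Ψ i h1 h2 (t + 1) le_rfl]
  by_cases h : t₁ ≤ t
  · rw [if_pos (by omega), if_pos h]
  · rw [if_neg (by omega), if_neg h]

theorem app_pre (Ψ : ℕ × List Bool × ℕ → Option Bool) (i : ℕ) {z y : ℕ → Bool}
    (h : Outputs (fun σ n => Ψ (i, σ, n)) z y) :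
    ∃ L : ℕ → ℕ, Tendsto L atTop atTop ∧ ∀ t, app Ψ i (pre z t) = pre y (L t) := by
  choose τ hτ1 hτ2 using h
  have key : ∀ t k : ℕ, ∃ L, (k.rec [] fun _ acc => acc ++ (firstAns Ψ i (pre z t) acc.length).toList
      : List Bool) = pre y L ∧ ∀ N, N ≤ k → (∀ n, n < N → τ n ≤ t) → N ≤ L := by
    intro t k
    induction k with
    | zero => exact ⟨0, rfl, fun N hN _ => hN⟩
    | succ k ih =>
      obtain ⟨L, hL, hN⟩ := ih
      have e : ((k + 1).rec [] fun _ acc => acc ++ (firstAns Ψ i (pre z t) acc.length).toList
          : List Bool) = (k.rec [] fun _ acc => acc ++ (firstAns Ψ i (pre z t) acc.length).toList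
          : List Bool) ++ (firstAns Ψ i (pre z t) (k.rec [] fun _ acc => acc ++ (firstAns Ψ i (pre z t) acc.length).toList
          : List Bool).length).toList := rfl
      rw [e, hL, pre_length, firstAns_eq Ψ i (hτ1 L) (hτ2 L) t]
      by_cases hc : τ L ≤ t
      · refine ⟨L + 1, ?_, ?_⟩
        · rw [if_pos hc, pre_succ]; rfl
        · intro N hNk hNt
          by_cases hNk' : N ≤ k
          · have := hN N hNk' hNt
            omega
          · have h3 := hN k le_rfl fun n hn => hNt n (by omega)
            omega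
      · refine ⟨L, ?_, ?_⟩
        · rw [if_neg hc]; simp
        · intro N hNk hNt
          by_contra hcon
          push Not at hcon
          exact hc (hNt L hcon)
  choose L hL1 hL2 using fun t => key t t
  refine ⟨L, ?_, fun t => ?_⟩
  · rw [tendsto_atTop]
    intro N
    have h1 : ∀ᶠ t in atTop, ∀ n ∈ Finset.range N, τ n ≤ t := by
      rw [eventually_all_finset]
      intro n _
      exact eventually_ge_atTop _
    filter_upwards [eventually_ge_atTop N, h1] with t ht ht1
    exact hL2 t N ht fun n hn => ht1 n (Finset.mem_range.2 hn)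
  · unfold app
    rw [pre_length]
    exact hL1 t

/-- finitely many functionals are one functional with a parameter -/
theorem exists_combined (Φ : ℕ → List Bool → ℕ → Option Bool) (r : ℕ)
    (hΦ : ∀ i, i < r → Computable₂ (Φ i)) :
    ∃ Ψ : ℕ × List Bool × ℕ → Option Bool, Computable Ψ ∧
      ∀ i, i < r → ∀ σ n, Ψ (i, σ, n) = Φ i σ n := by
  induction r with
  | zero => exact ⟨fun _ => none, Computable.const none, fun i hi => by omega⟩
  | succ r ih =>
    obtain ⟨Ψ, hΨ, h⟩ := ih fun i hi => hΦ i (by omega)
    refine ⟨fun q => bif decide (q.1 = r) then Φ r q.2.1 q.2.2 else Ψ q, ?_, ?_⟩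
    · refine Computable.cond ?_ ?_ hΨ
      · exact (Primrec.eq.comp Primrec.fst (Primrec.const r)).decide.to_comp
      · exact (hΦ r (by omega)).comp (Computable.fst.comp Computable.snd)
          (Computable.snd.comp Computable.snd)
    · intro i hi σ n
      by_cases hir : i = r
      · subst hir; simp
      · simp only [hir, decide_false, cond_false]
        exact h i (by omega) σ n

section
variable {Γ : Type} [Group Γ] {X : Type} [MulAction Γ X]

theorem runs_pre {r : ℕ} (hr : 2 ≤ r) {s : ℕ → Γ} (hs : s 0 = 1)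
    (Ψ : ℕ × List Bool × ℕ → Option Bool) (f : X → ℕ → Bool) (x : X)
    (h : ∀ (γ : Γ) (i : ℕ), i < r →
      Outputs (fun σ n => Ψ (i, σ, n)) (f (γ • x)) (f (s i • γ • x))) (j k : ℕ) (hk : k ≤ j) :
    ∃ L : ℕ → ℕ, Tendsto L atTop atTop ∧ ∀ t,
      (k.rec (pre (f x) t) fun k acc => app Ψ (j / r ^ (j - 1 - k) % r) acc : List Bool) =
        pre (f (word r s (j / r ^ (j - k)) • x)) (L t) := by
  induction k with
  | zero =>
    refine ⟨id, tendsto_id, fun t => ?_⟩
    have h1 : j / r ^ (j - 0) = 0 := by
      apply Nat.div_eq_of_lt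
      simpa using Nat.lt_pow_self (n := j) (by omega : 1 < r)
    rw [h1, word_zero, one_smul]
    rfl
  | succ k ih =>
    obtain ⟨L, hL, hLe⟩ := ih (by omega)
    set e := j / r ^ (j - k) with he
    set d := j / r ^ (j - 1 - k) % r with hd
    have hdr : d < r := Nat.mod_lt _ (by omega)
    have hstep : j / r ^ (j - (k + 1)) = d + r * e := by
      have h1 : j - (k + 1) = j - 1 - k := by omega
      have h2 : j - k = (j - 1 - k) + 1 := by omega
      rw [h1, he, h2, pow_succ, ← Nat.div_div_eq_div_mul, hd]
      exact (Nat.mod_add_div _ _).symm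
    have h3 := h (word r s e) d hdr
    obtain ⟨M, hM, hMe⟩ := app_pre Ψ d h3
    refine ⟨fun t => M (L t), hM.comp hL, fun t => ?_⟩
    have e1 : ((k + 1).rec (pre (f x) t) fun k acc => app Ψ (j / r ^ (j - 1 - k) % r) acc
        : List Bool) = app Ψ (j / r ^ (j - 1 - k) % r)
          (k.rec (pre (f x) t) fun k acc => app Ψ (j / r ^ (j - 1 - k) % r) acc : List Bool) := rfl
    rw [e1, hLe t, ← hd, hMe, hstep, word_add hr hs hdr, mul_smul]

/-- uniformity along the orbit of `x` for finitely many group elements gives the join over words -/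
theorem join_of_outputs {r : ℕ} (hr : 2 ≤ r) {s : ℕ → Γ} (hs : s 0 = 1)
    (Φ : ℕ → List Bool → ℕ → Option Bool) (hΦ : ∀ i, i < r → Computable₂ (Φ i))
    (f : X → ℕ → Bool) (x : X)
    (h : ∀ (γ : Γ) (i : ℕ), i < r → Outputs (Φ i) (f (γ • x)) (f (s i • γ • x))) :
    TuringReducible (chi (join fun j => f (word r s j • x))) (chi (f x)) := by
  obtain ⟨Ψ, hΨ, hΨe⟩ := exists_combined Φ r hΦ
  have h' : ∀ (γ : Γ) (i : ℕ), i < r →
      Outputs (fun σ n => Ψ (i, σ, n)) (f (γ • x)) (f (s i • γ • x)) := by
    intro γ i hi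
    have : (fun σ n => Ψ (i, σ, n)) = Φ i := by
      funext σ n
      exact hΨe i hi σ n
    rw [this]
    exact h γ i hi
  let Θ : List ℕ → ℕ → Option ℕ := fun ρ p =>
    ((runs Ψ r p.unpair.1 (ρ.map fun k => decide (k = 1)))[p.unpair.2]?).map Bool.toNat
  have hΘ : Computable₂ Θ := by
    have h1 : Primrec fun w : List ℕ × ℕ => w.1.map fun k => decide (k = 1) := by
      refine Primrec.list_map Primrec.fst ?_
      exact (Primrec.eq.comp Primrec.snd (Primrec.const 1)).decide
    have h3 : Computable fun w : List ℕ × ℕ =>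
        runs Ψ r w.2.unpair.1 (w.1.map fun k => decide (k = 1)) :=
      runs_comp hΨ r (Primrec.fst.comp (Primrec.unpair.comp Primrec.snd)) h1.to_comp
    have h4 : Computable fun w : List ℕ × ℕ =>
        (runs Ψ r w.2.unpair.1 (w.1.map fun k => decide (k = 1)))[w.2.unpair.2]? :=
      Computable.list_getElem?.comp h3 (Primrec.snd.comp (Primrec.unpair.comp Primrec.snd)).to_comp
    have h5 : Computable fun w : List ℕ × ℕ =>
        ((runs Ψ r w.2.unpair.1 (w.1.map fun k => decide (k = 1)))[w.2.unpair.2]?).map Bool.toNat :=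
      (Primrec.dom_finite (fun o : Option Bool => o.map Bool.toNat)).to_comp.comp h4
    exact h5
  let Xo : ℕ → ℕ := fun i => (f x i).toNat
  have hS := search_rec_comp Xo hΘ
  have hmap : ∀ t, (seg Xo t).map (fun k => decide (k = 1)) = pre (f x) t := by
    intro t
    unfold seg pre
    rw [List.map_map]
    apply List.map_congr_left
    intro i _
    show decide ((f x i).toNat = 1) = f x i
    cases f x i <;> simp
  have key : ∀ p, Nat.rfindOpt (fun t => Θ (seg Xo t) p) =
      chi (join fun j => f (word r s j • x)) p := by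
    intro p
    obtain ⟨L, hL, hLe⟩ := runs_pre hr hs Ψ f x h' p.unpair.1 p.unpair.1 le_rfl
    have hval : ∀ t, Θ (seg Xo t) p =
        if p.unpair.2 < L t then some (join (fun j => f (word r s j • x)) p).toNat else none := by
      intro t
      show ((runs Ψ r p.unpair.1 ((seg Xo t).map fun k => decide (k = 1)))[p.unpair.2]?).map
        Bool.toNat = _
      rw [hmap]
      have h1 : runs Ψ r p.unpair.1 (pre (f x) t) = pre (f (word r s p.unpair.1 • x)) (L t) := by
        have := hLe t
        rw [Nat.sub_self, pow_zero, Nat.div_one] at this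
        exact this
      rw [h1]
      by_cases hlt : p.unpair.2 < L t
      · rw [if_pos hlt]
        simp [pre, hlt, join]
      · rw [if_neg hlt]
        simp [pre, hlt]
    have hdom : (Nat.rfindOpt (fun t => Θ (seg Xo t) p)).Dom := by
      rw [Nat.rfindOpt_dom]
      obtain ⟨t, ht⟩ := (hL.eventually (eventually_gt_atTop p.unpair.2)).exists
      exact ⟨t, _, by rw [hval t, if_pos ht]; rfl⟩
    obtain ⟨w, hw⟩ := Part.dom_iff_mem.1 hdom
    obtain ⟨t, ht⟩ := Nat.rfindOpt_spec hw
    have ht' : Θ (seg Xo t) p = some w := ht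
    rw [hval t] at ht'
    split_ifs at ht' with hc
    have := Option.some.inj ht'
    rw [← this] at hw
    exact Part.eq_some_iff.2 hw
  exact RecursiveIn.of_eq hS key

end

end Pool.Agent.Lib.MP_75b31c_lc.H40
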